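import Pool.Agent.S9.E.HK

/-!
# Project S9, block E: ranks of matrices over the Laurent polynomials
-/

set_option autoImplicit false
set_option linter.unusedSectionVars false

open Finset

namespace Pool.Agent.S9

variable {I : Type} [Fintype I] {κ μ : Type} [Fintype κ] [Fintype μ] [DecidableEq μ] [DecidableEq κ]

/-- (I3a), helper38: the rank of the reductions is at least the generic rank, up to `ε` -/
theorem rank_lim (M : Matrix κ μ (RI I)) (ε : ℝ) (hε : 0 < ε) :
    ∃ k₀ : ℕ, ∀ k ≥ k₀, (((M.map (algebraMap (RI I) (KI I))).rank : ℝ) - ε) *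
      2 ^ (k * Fintype.card I) ≤
      Module.finrank (ZMod 2) (LinearMap.range
        ((M.map (redR I k)).mulVecLin.restrictScalars (ZMod 2))) := HK.rank_lim M hε

/-- (I3c): specialisation -/
theorem rank_spec {F : Type} [Field F] (φ : RI I →+* F) (M : Matrix κ μ (RI I)) :
    (M.map φ).rank ≤ (M.map (algebraMap (RI I) (KI I))).rank := HK.rank_spec (KI I) φ M

/-- (I3d): injective substitution -/
theorem rank_sub (Z : (I → ℤ) →+ (I → ℤ)) (hZ : Function.Injective Z) (M : Matrix κ μ (RI I)) :
    ((M.map (subR Z)).map (algebraMap (RI I) (KI I))).rank =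
      (M.map (algebraMap (RI I) (KI I))).rank := by
  have h1 : Function.Injective (subR Z) := AddMonoidAlgebra.mapDomain_injective hZ
  have h2 : Function.Injective ((algebraMap (RI I) (KI I)).comp (subR Z)) :=
    (IsFractionRing.injective (RI I) (KI I)).comp h1
  rw [← HK.rank_inj (KI I) h2 M]
  rfl

end Pool.Agent.S9
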