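import Pool.Agent.H19.SR.Dim

/-!
# Project S9, block E: triangular edge matrices over a finite ring of characteristic two
-/

set_option autoImplicit false
set_option linter.unusedSectionVars false

open Finset

namespace Pool.Agent.S9

open Pool.Agent.H77.SW Pool.Agent.H19.SR Pool.Agent.H73.GC

variable {V : Type} [DecidableEq V] [Fintype V] {P : Type} [Group P]

section Tri

variable {S : Type} [CommRing S] [Module F2 S] [SMulCommClass F2 S S] {n : ℕ}

/-- the matrices which are upper triangular with diagonal entries of two-power order -/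
def UT (A : Matrix (Fin n) (Fin n) S) : Prop :=
  (∀ a b, b < a → A a b = 0) ∧ ∀ a, ∃ k : ℕ, A a a ^ 2 ^ k = 1

private theorem dg_mul {A B : Matrix (Fin n) (Fin n) S} (hA : ∀ a b, b < a → A a b = 0)
    (hB : ∀ a b, b < a → B a b = 0) (a : Fin n) : (A * B) a a = A a a * B a a := by
  rw [Matrix.mul_apply, Finset.sum_eq_single a]
  · intro c _ hc
    rcases lt_or_gt_of_ne hc with h | h
    · rw [hA a c h, zero_mul]
    · rw [hB c a h, mul_zero]
  · intro h
    exact absurd (mem_univ a) h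

private theorem ut_one : UT (1 : Matrix (Fin n) (Fin n) S) := by
  refine ⟨fun a b h => Matrix.one_apply_ne h.ne', fun a => ⟨0, ?_⟩⟩
  rw [Matrix.one_apply_eq, one_pow]

private theorem tri_mul {A B : Matrix (Fin n) (Fin n) S} (hA : ∀ a b, b < a → A a b = 0)
    (hB : ∀ a b, b < a → B a b = 0) : ∀ a b, b < a → (A * B) a b = 0 := by
  intro a b h
  rw [Matrix.mul_apply]
  refine sum_eq_zero fun c _ => ?_
  rcases lt_or_ge c a with h1 | h1
  · rw [hA a c h1, zero_mul]
  · rw [hB c b (lt_of_lt_of_le h h1), mul_zero]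

private theorem ut_mul {A B : Matrix (Fin n) (Fin n) S} (hA : UT A) (hB : UT B) : UT (A * B) := by
  refine ⟨tri_mul hA.1 hB.1, fun a => ?_⟩
  obtain ⟨k, hk⟩ := hA.2 a
  obtain ⟨l, hl⟩ := hB.2 a
  refine ⟨k + l, ?_⟩
  rw [dg_mul hA.1 hB.1, mul_pow, pow_add, pow_mul, hk, one_pow, one_mul, mul_comm (2 ^ k), pow_mul,
    hl, one_pow]

/-- a matrix in `UT` has two-power order -/
private theorem ut_pow [CharP S 2] {A : Matrix (Fin n) (Fin n) S} (hA : UT A) :
    ∃ k : ℕ, A ^ 2 ^ k = 1 := by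
  -- a common exponent for the diagonal
  choose f hf using hA.2
  obtain ⟨k, hk⟩ : ∃ k : ℕ, ∀ a, A a a ^ 2 ^ k = 1 := by
    refine ⟨∑ a, f a, fun a => ?_⟩
    have h1 : f a ≤ ∑ a, f a := single_le_sum (fun _ _ => Nat.zero_le _) (mem_univ a)
    obtain ⟨c, hc⟩ := Nat.exists_eq_add_of_le h1
    rw [hc, pow_add, pow_mul, hf, one_pow]
  have h1 : ∀ m : ℕ, (∀ a b, b < a → (A ^ m) a b = 0) ∧ ∀ a, (A ^ m) a a = A a a ^ m := by
    intro m
    induction m with
    | zero =>
      refine ⟨fun a b h => ?_, fun a => ?_⟩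
      · rw [pow_zero, Matrix.one_apply_ne h.ne']
      · rw [pow_zero, pow_zero, Matrix.one_apply_eq]
    | succ m ih =>
      refine ⟨fun a b h => ?_, fun a => ?_⟩
      · rw [pow_succ]
        exact tri_mul ih.1 hA.1 a b h
      · rw [pow_succ, dg_mul ih.1 hA.1, ih.2, pow_succ]
  obtain ⟨B, hB⟩ : ∃ B, B = A ^ 2 ^ k - 1 := ⟨_, rfl⟩
  have hB1 : A ^ 2 ^ k = 1 + B := by rw [hB]; abel
  have hB2 : ∀ a b, b ≤ a → B a b = 0 := by
    intro a b h
    rw [hB, Matrix.sub_apply]
    rcases eq_or_lt_of_le h with h2 | h2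
    · subst h2
      rw [(h1 _).2, hk, Matrix.one_apply_eq, sub_self]
    · rw [(h1 _).1 a b h2, Matrix.one_apply_ne h2.ne', sub_zero]
  -- `B` is nilpotent
  have hB3 : ∀ m : ℕ, ∀ a b : Fin n, b.val < a.val + m → (B ^ m) a b = 0 := by
    intro m
    induction m with
    | zero =>
      intro a b h
      rw [pow_zero, Matrix.one_apply_ne]
      intro h2
      rw [h2] at h
      omega
    | succ m ih =>
      intro a b h
      rw [pow_succ, Matrix.mul_apply]
      refine sum_eq_zero fun c _ => ?_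
      rcases Nat.lt_or_ge c.val (a.val + m) with h2 | h2
      · rw [ih a c h2, zero_mul]
      · rw [hB2 c b (by rw [Fin.le_def]; omega), mul_zero]
  have hB4 : B ^ n = 0 := by
    ext a b
    rw [hB3 n a b (by have := b.isLt; omega), Matrix.zero_apply]
  refine ⟨k + n, ?_⟩
  rw [pow_add, pow_mul, hB1]
  rcases Nat.eq_zero_or_pos n with hn | hn
  · subst hn
    ext a b
    exact a.elim0
  haveI : Nonempty (Fin n) := ⟨⟨0, hn⟩⟩
  haveI : Fact (Nat.Prime 2) := ⟨Nat.prime_two⟩
  haveI : CharP (Matrix (Fin n) (Fin n) S) 2 := inferInstance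
  have h5 : (1 + B) ^ 2 ^ n = 1 ^ 2 ^ n + B ^ 2 ^ n := by
    have h6 : ∀ m : ℕ, (1 + B) ^ 2 ^ m = 1 + B ^ 2 ^ m := by
      intro m
      induction m with
      | zero => rw [pow_zero, pow_one, pow_one]
      | succ m ih =>
        rw [pow_succ, pow_mul, ih, pow_mul, pow_two, pow_two]
        have h7 : (B ^ 2 ^ m) + (B ^ 2 ^ m) = 0 := CharTwo.add_self_eq_zero _
        have h8 : (1 + B ^ 2 ^ m) * (1 + B ^ 2 ^ m) =
            1 + ((B ^ 2 ^ m) + (B ^ 2 ^ m)) + B ^ 2 ^ m * B ^ 2 ^ m := by noncomm_ring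
        rw [h8, h7, add_zero]
    rw [h6, one_pow]
  rw [h5, one_pow]
  have h9 : n ≤ 2 ^ n := Nat.lt_two_pow_self.le
  obtain ⟨c, hc⟩ := Nat.exists_eq_add_of_le h9
  rw [hc, pow_add, hB4, zero_mul, add_zero]

/-- the operators `F ↦ (p ↦ T p *ᵥ F (p q))` with matrices in `UT` -/
private def IsT [Finite P] (f : Module.End F2 (P → Fin n → S)) : Prop :=
  ∃ (q : P) (T : P → Matrix (Fin n) (Fin n) S), (∀ p, UT (T p)) ∧
    ∀ F p, f F p = (T p).mulVec (F (p * q))

private theorem isT_one [Finite P] : IsT (1 : Module.End F2 (P → Fin n → S)) := by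
  refine ⟨1, fun _ => 1, fun _ => ut_one, fun F p => ?_⟩
  rw [mul_one, Matrix.one_mulVec]
  rfl

private theorem isT_mul [Finite P] {f g : Module.End F2 (P → Fin n → S)} (hf : IsT f) (hg : IsT g) :
    IsT (f * g) := by
  obtain ⟨q, T, hT, hf⟩ := hf
  obtain ⟨q', T', hT', hg⟩ := hg
  refine ⟨q * q', fun p => T p * T' (p * q), fun p => ut_mul (hT _) (hT' _), fun F p => ?_⟩
  rw [Module.End.mul_apply, hf, hg, Matrix.mulVec_mulVec, mul_assoc]

private theorem isT_pow [Finite P] {f : Module.End F2 (P → Fin n → S)} (hf : IsT f) (m : ℕ) :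
    IsT (f ^ m) := by
  induction m with
  | zero =>
    rw [pow_zero]
    exact isT_one
  | succ m ih =>
    rw [pow_succ]
    exact isT_mul ih hf

private theorem isT_ord [CharP S 2] [Finite P] (hP : IsPGroup 2 P)
    {f : Module.End F2 (P → Fin n → S)} (hf : IsT f) : ∃ k : ℕ, f ^ 2 ^ k = 1 := by
  have := Fintype.ofFinite P
  obtain ⟨q, T, hT, hf⟩ := hf
  obtain ⟨a, ha⟩ := hP q
  have h1 : ∀ m : ℕ, ∃ T' : P → Matrix (Fin n) (Fin n) S, (∀ p, UT (T' p)) ∧
      ∀ F p, (f ^ m) F p = (T' p).mulVec (F (p * q ^ m)) := by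
    intro m
    induction m with
    | zero =>
      refine ⟨fun _ => 1, fun _ => ut_one, fun F p => ?_⟩
      rw [pow_zero, pow_zero, mul_one, Matrix.one_mulVec]
      rfl
    | succ m ih =>
      obtain ⟨T', h2, h3⟩ := ih
      refine ⟨fun p => T' p * T (p * q ^ m), fun p => ut_mul (h2 _) (hT _), fun F p => ?_⟩
      rw [pow_succ, Module.End.mul_apply, h3, hf, Matrix.mulVec_mulVec, pow_succ, mul_assoc]
  obtain ⟨T', h2, h3⟩ := h1 (2 ^ a)
  rw [ha] at h3
  have h4 : ∀ m : ℕ, ∀ F p, ((f ^ 2 ^ a) ^ m) F p = (T' p ^ m).mulVec (F p) := by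
    intro m
    induction m with
    | zero =>
      intro F p
      rw [pow_zero, pow_zero, Matrix.one_mulVec]
      rfl
    | succ m ih =>
      intro F p
      rw [pow_succ, Module.End.mul_apply, ih, h3, mul_one, Matrix.mulVec_mulVec, pow_succ]
  have h5 : ∀ p, ∃ k : ℕ, T' p ^ 2 ^ k = 1 := fun p => ut_pow (h2 p)
  choose b hb using h5
  refine ⟨a + ∑ p, b p, ?_⟩
  ext1 F
  funext p
  rw [pow_add, pow_mul, h4]
  have h6 : b p ≤ ∑ p, b p := single_le_sum (fun _ _ => Nat.zero_le _) (mem_univ p)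
  obtain ⟨c, hc⟩ := Nat.exists_eq_add_of_le h6
  rw [hc, pow_add, pow_mul, hb, one_pow, Matrix.one_mulVec]
  rfl

/-- **Triangular edge matrices over a finite ring of characteristic two** whose diagonal entries have two-power
order act through a finite two-group. -/
theorem fil_edge [CharP S 2] [Finite S] [Finite P] (hP : IsPGroup 2 P)
    (g : V → P) (M : V → P → Matrix (Fin n) (Fin n) S) (hM : ∀ v p, UT (M v p))
    (r : V → Module.End F2 (P → Fin n → S)) (hr : ∀ v F p, r v F p = (M v p).mulVec (F (p * g v)))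
    (hsq : ∀ v F, r v (r v F) = F) : Fil univ r := by
  have hsq' : ∀ v, r v * r v = 1 := by
    intro v
    ext1 F
    exact hsq v F
  let u : V → (Module.End F2 (P → Fin n → S))ˣ := fun v => ⟨r v, r v, hsq' v, hsq' v⟩
  let Q : Subgroup (Module.End F2 (P → Fin n → S))ˣ := Subgroup.closure (Set.range u)
  have hfin : Finite (Module.End F2 (P → Fin n → S)) :=
    Finite.of_injective (fun f : Module.End F2 (P → Fin n → S) => (f : (P → Fin n → S) → (P → Fin n → S)))
      DFunLike.coe_injective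
  have hfin2 : Finite (Module.End F2 (P → Fin n → S))ˣ :=
    Finite.of_injective _ Units.val_injective
  have hQT : ∀ x ∈ Q, IsT (x : Module.End F2 (P → Fin n → S)) := by
    intro x hx
    induction hx using Subgroup.closure_induction with
    | mem x hx =>
      obtain ⟨v, rfl⟩ := hx
      exact ⟨g v, M v, hM v, hr v⟩
    | one => exact isT_one
    | mul x y _ _ h1 h2 => exact isT_mul h1 h2
    | inv x _ h1 =>
      obtain ⟨k, hk⟩ := isT_ord hP h1
      have h2 : x ^ 2 ^ k = 1 := by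
        apply Units.val_injective
        rw [Units.val_pow_eq_pow_val, hk, Units.val_one]
      have h3 : x⁻¹ = x ^ (2 ^ k - 1) := by
        rw [inv_eq_iff_mul_eq_one]
        have h4 : 2 ^ k = (2 ^ k - 1) + 1 := (Nat.sub_add_cancel Nat.one_le_two_pow).symm
        rw [← pow_succ', ← h4, h2]
      rw [h3, Units.val_pow_eq_pow_val]
      exact isT_pow h1 _
  have hQ2 : IsPGroup 2 Q := by
    intro x
    obtain ⟨k, hk⟩ := isT_ord hP (hQT x.1 x.2)
    refine ⟨k, ?_⟩
    apply Subtype.ext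
    apply Units.val_injective
    show ((x.1 ^ 2 ^ k : (Module.End F2 (P → Fin n → S))ˣ) : Module.End F2 (P → Fin n → S)) = 1
    rw [Units.val_pow_eq_pow_val, hk]
  exact fil_group hQ2 ((Units.coeHom _).comp Q.subtype) univ r
    (fun v => ⟨u v, Subgroup.subset_closure ⟨v, rfl⟩⟩) fun v _ => rfl

end Tri

end Pool.Agent.S9
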