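import Pool.Agent.S9.E.HK
import Pool.Agent.S9.E.RedT

/-!
# Project S9, block E: the reduction of triangular edge matrices is a module over the graph
-/

set_option autoImplicit false
set_option linter.unusedSectionVars false

open Finset

namespace Pool.Agent.S9

open Pool.Agent.H77.SW Pool.Agent.H19.SR Pool.Agent.H73.GC

variable {V : Type} [DecidableEq V] [Fintype V] {P : Type} [Group P]

section Gen

variable {S : Type} [CommRing S] [Module F2 S] [SMulCommClass F2 S S] [IsScalarTower F2 S S] {n : ℕ}

/-- the operators over the field of two elements -/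
def rM2 {G : SimpleGraph V} (D : PG G P) (M : V → P → Matrix (Fin n) (Fin n) S) (v : V) :
    Module.End F2 (P → Fin n → S) where
  toFun F p := (M v p).mulVec (F (p * D.g v))
  map_add' F F' := by
    funext p
    exact Matrix.mulVec_add (M v p) (F (p * D.g v)) (F' (p * D.g v))
  map_smul' c F := by
    funext p
    exact Matrix.mulVec_smul (M v p) c (F (p * D.g v))

theorem rM2_apply {G : SimpleGraph V} (D : PG G P) (M : V → P → Matrix (Fin n) (Fin n) S) (v : V)
    (F : P → Fin n → S) (p : P) : rM2 D M v F p = (M v p).mulVec (F (p * D.g v)) := rfl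

open Classical in
/-- the projections: the vertices with bit `0` -/
noncomputable def bM2 (S : Type) [CommRing S] [Module F2 S] (n : ℕ) {G : SimpleGraph V} (D : PG G P)
    (v : V) : Module.End F2 (P → Fin n → S) where
  toFun F p := if D.b p v = 0 then F p else 0
  map_add' F F' := by
    funext p
    simp only [Pi.add_apply]
    split_ifs <;> simp
  map_smul' c F := by
    funext p
    simp only [Pi.smul_apply, RingHom.id_apply]
    split_ifs <;> simp

theorem bM2_apply {G : SimpleGraph V} (D : PG G P) (v : V) (F : P → Fin n → S) (p : P) :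
    bM2 S n D v F p = if D.b p v = 0 then F p else 0 := by
  classical
  show (if D.b p v = 0 then F p else 0) = _
  split_ifs <;> rfl

/-- **Triangular edge matrices over a finite ring** of characteristic two give a module over the graph. -/
theorem isN_red [CharP S 2] [Finite S] [Finite P] {G : SimpleGraph V} (D : PG G P)
    {M : V → P → Matrix (Fin n) (Fin n) S} (hM : IsEdg D M) (hU : ∀ v p, UT (M v p)) :
    IsN G univ (rM2 D M) := by
  have hsq : ∀ v F, rM2 D M v (rM2 D M v F) = F := by
    intro v F
    funext p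
    rw [rM2_apply, rM2_apply, Matrix.mulVec_mulVec, hM.inv, Matrix.one_mulVec, mul_assoc, D.sq,
      mul_one]
  refine ⟨fun v _ F => hsq v F, fun u _ v _ huv F => ?_, ?_⟩
  · funext p
    rw [rM2_apply, rM2_apply, rM2_apply, rM2_apply, Matrix.mulVec_mulVec, Matrix.mulVec_mulVec,
      hM.comm u v huv, mul_assoc, mul_assoc, D.comm u v huv]
  · exact fil_edge D.two D.g M hU (rM2 D M) (fun v F p => rfl) hsq

theorem isBit_red {G : SimpleGraph V} (D : PG G P) (M : V → P → Matrix (Fin n) (Fin n) S) :
    IsBit G univ (rM2 D M) (bM2 S n D) := by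
  refine ⟨fun v _ F => ?_, fun v _ F => ?_, fun u _ v _ huv F => ?_, fun u _ v _ huv F => ?_⟩
  · funext p
    rw [bM2_apply, bM2_apply]
    split_ifs <;> rfl
  · funext p
    rw [Pi.add_apply, bM2_apply, rM2_apply, rM2_apply, bM2_apply, D.b_mul, D.b_g, if_pos rfl]
    have h2 : ∀ a : ZMod 2, a = 0 ∨ a = 1 := by decide
    rcases h2 (D.b p v) with h | h
    · rw [h, if_pos rfl, if_neg (by decide), Matrix.mulVec_zero, add_zero]
    · rw [h, if_neg (by decide), if_pos (by decide), zero_add]
  · funext p
    rw [bM2_apply, rM2_apply, rM2_apply, bM2_apply, D.b_mul, D.b_g, if_neg huv.ne', add_zero]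
    split_ifs
    · rfl
    · rw [Matrix.mulVec_zero]
  · funext p
    rw [bM2_apply, bM2_apply, bM2_apply, bM2_apply]
    split_ifs <;> rfl

end Gen

section RK

variable {I : Type} {n : ℕ}

theorem finite_RK [Finite I] (k : ℕ) : Finite (RK I k) := HK.finite_RK k

theorem finrank_RK [Fintype I] (k : ℕ) :
    Module.finrank (ZMod 2) (RK I k) = 2 ^ (k * Fintype.card I) := HK.finrank_RK k

instance charP_RK (k : ℕ) : CharP (RK I k) 2 :=
  charP_of_injective_algebraMap (algebraMap (ZMod 2) (RK I k)).injective 2

/-- monomials have two-power order -/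
theorem single_pow_RK (k : ℕ) (a : I → ZMod (2 ^ k)) :
    (AddMonoidAlgebra.single a 1 : RK I k) ^ 2 ^ k = 1 := by
  rw [AddMonoidAlgebra.single_pow, one_pow]
  have h : (2 ^ k) • a = 0 := by
    funext i
    rw [Pi.smul_apply, Pi.zero_apply, nsmul_eq_mul]
    have h2 : ((2 ^ k : ℕ) : ZMod (2 ^ k)) = 0 := ZMod.natCast_self (2 ^ k)
    rw [h2, zero_mul]
  rw [h]
  rfl

theorem redR_ttR (k : ℕ) (x : I → ℤ) :
    redR I k (ttR x) = AddMonoidAlgebra.single (redZ I k x) 1 := by
  unfold redR ttR
  rw [AddMonoidAlgebra.mapDomainRingHom_apply, AddMonoidAlgebra.mapDomain_single]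

/-- the reduction of a triangular matrix with monomials on the diagonal -/
theorem ut_red (k : ℕ) {A : Matrix (Fin n) (Fin n) (RI I)}
    (hA : ∀ a b, b < a → A a b = 0) (hd : ∀ a, ∃ x : I → ℤ, A a a = ttR x) :
    UT (A.map (redR I k)) := by
  refine ⟨fun a b h => ?_, fun a => ⟨k, ?_⟩⟩
  · rw [Matrix.map_apply, hA a b h, map_zero]
  · obtain ⟨x, hx⟩ := hd a
    rw [Matrix.map_apply, hx, redR_ttR, single_pow_RK]

/-- the operators of the edge matrices over `RI I` on the functions with values in the ring `RK I k` -/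
noncomputable def rk {G : SimpleGraph V} (D : PG G P) (M : V → P → Matrix (Fin n) (Fin n) (RI I))
    (k : ℕ) (v : V) : Module.End F2 (P → Fin n → RK I k) :=
  (rM D (fun v p => (M v p).map (redR I k)) v).restrictScalars (ZMod 2)

theorem rk_apply {G : SimpleGraph V} (D : PG G P) (M : V → P → Matrix (Fin n) (Fin n) (RI I))
    (k : ℕ) (v : V) (F : P → Fin n → RK I k) (p : P) :
    rk D M k v F p = ((M v p).map (redR I k)).mulVec (F (p * D.g v)) := rfl

/-- the projections -/
noncomputable def bk {G : SimpleGraph V} (D : PG G P) (I : Type) (n k : ℕ) (v : V) :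
    Module.End F2 (P → Fin n → RK I k) where
  toFun F p := if D.b p v = 0 then F p else 0
  map_add' F F' := by
    funext p
    simp only [Pi.add_apply]
    split_ifs <;> simp
  map_smul' c F := by
    funext p
    simp only [Pi.smul_apply, RingHom.id_apply]
    split_ifs <;> simp

theorem isEdg_red {G : SimpleGraph V} {D : PG G P} {M : V → P → Matrix (Fin n) (Fin n) (RI I)}
    (hM : IsEdg D M) (k : ℕ) : IsEdg D fun v p => (M v p).map (redR I k) := by
  refine ⟨fun v p => ?_, fun u v huv p => ?_⟩
  · show (M v p).map (redR I k) * (M v (p * D.g v)).map (redR I k) = 1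
    rw [← Matrix.map_mul, hM.inv]
    exact Matrix.map_one _ (map_zero _) (map_one _)
  · show (M u p).map (redR I k) * (M v (p * D.g u)).map (redR I k) =
      (M v p).map (redR I k) * (M u (p * D.g v)).map (redR I k)
    rw [← Matrix.map_mul, ← Matrix.map_mul, hM.comm u v huv]

/-- **The module is unipotent.** -/
theorem isN_rk [Fintype P] [Finite I] {G : SimpleGraph V} (D : PG G P)
    (M : V → P → Matrix (Fin n) (Fin n) (RI I))
    (hM : IsEdg D M) (htri : ∀ v p a b, b < a → M v p a b = 0)
    (w : V → P → Fin n → I → ℤ) (hw : ∀ v p a, M v p a a = ttR (w v p a)) (k : ℕ) :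
    IsN G univ (rk D M k) := by
  have hE := isEdg_red hM k
  have hsq : ∀ v F, rk D M k v (rk D M k v F) = F := by
    intro v F
    funext p
    have h1 := hE.inv v p
    rw [rk_apply, rk_apply, Matrix.mulVec_mulVec, h1, Matrix.one_mulVec, mul_assoc, D.sq, mul_one]
  have hfin : Finite (RK I k) := finite_RK k
  refine ⟨fun v _ F => hsq v F, fun u _ v _ huv F => ?_, ?_⟩
  · funext p
    have h1 := hE.comm u v huv p
    rw [rk_apply, rk_apply, rk_apply, rk_apply, Matrix.mulVec_mulVec, Matrix.mulVec_mulVec,
      h1, mul_assoc, mul_assoc, D.comm u v huv]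
  · exact fil_edge D.two D.g (fun v p => (M v p).map (redR I k))
      (fun v p => ut_red k (htri v p) fun a => ⟨_, hw v p a⟩) (rk D M k) (fun v F p => rfl) hsq

theorem isBit_rk {G : SimpleGraph V} (D : PG G P) (M : V → P → Matrix (Fin n) (Fin n) (RI I))
    (k : ℕ) : IsBit G univ (rk D M k) (bk D I n k) := by
  have hb : ∀ v F p, bk D I n k v F p = if D.b p v = 0 then F p else 0 := fun _ _ _ => rfl
  refine ⟨fun v _ F => ?_, fun v _ F => ?_, fun u _ v _ huv F => ?_, fun u _ v _ huv F => ?_⟩
  · funext p
    rw [hb, hb]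
    split_ifs <;> rfl
  · funext p
    rw [Pi.add_apply, hb, rk_apply, rk_apply, hb, D.b_mul, D.b_g, if_pos rfl]
    have h2 : ∀ a : ZMod 2, a = 0 ∨ a = 1 := by decide
    rcases h2 (D.b p v) with h | h
    · rw [h, if_pos rfl, if_neg (by decide), Matrix.mulVec_zero, add_zero]
    · rw [h, if_neg (by decide), if_pos (by decide), zero_add]
  · funext p
    rw [hb, rk_apply, rk_apply, hb, D.b_mul, D.b_g, if_neg huv.ne', add_zero]
    split_ifs
    · rfl
    · rw [Matrix.mulVec_zero]
  · funext p
    rw [hb, hb, hb, hb]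
    split_ifs <;> rfl

end RK

end Pool.Agent.S9
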