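import Pool.Agent.H19.SR.Dim

/-!
# Project S9, block E: definitions

Coefficients with edge matrices on a finite quotient `D : PG G P`, Laurent polynomials of the walls.
-/

set_option autoImplicit false
set_option linter.unusedSectionVars false

open Finset

namespace Pool.Agent.S9

open Pool.Agent.H77.SW Pool.Agent.H19.SR Pool.Agent.H73.GC

/-- the Laurent polynomials with the variables `I` over the field with two elements -/
abbrev RI (I : Type) : Type := AddMonoidAlgebra (ZMod 2) (I → ℤ)

/-- their field of fractions -/
abbrev KI (I : Type) : Type := FractionRing (RI I)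

/-- the group ring of `(ℤ/2^k)^I` -/
abbrev RK (I : Type) (k : ℕ) : Type := AddMonoidAlgebra (ZMod 2) (I → ZMod (2 ^ k))

/-- the monomial in the ring -/
noncomputable def ttR {I : Type} (a : I → ℤ) : RI I := AddMonoidAlgebra.single a 1

/-- the monomial in the field -/
noncomputable def tt {I : Type} (a : I → ℤ) : KI I := algebraMap (RI I) (KI I) (ttR a)

/-- the reduction of the exponents -/
def redZ (I : Type) (k : ℕ) : (I → ℤ) →+ (I → ZMod (2 ^ k)) where
  toFun a i := (a i : ZMod (2 ^ k))
  map_zero' := by
    funext i
    exact Int.cast_zero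
  map_add' a b := by
    funext i
    exact Int.cast_add _ _

/-- the reduction `t ^ (2 ^ k) = 1` -/
noncomputable def redR (I : Type) (k : ℕ) : RI I →+* RK I k :=
  AddMonoidAlgebra.mapDomainRingHom (ZMod 2) (redZ I k)

/-- the specialisation `t = 1` -/
noncomputable def augR (I : Type) : RI I →+* ZMod 2 :=
  AddMonoidAlgebra.liftNCRingHom (RingHom.id (ZMod 2)) (1 : Multiplicative (I → ℤ) →* ZMod 2)
    fun _ _ => Commute.all _ _

/-- the substitution `t ^ a ↦ t ^ (Z a)` -/
noncomputable def subR {I : Type} (Z : (I → ℤ) →+ (I → ℤ)) : RI I →+* RI I :=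
  AddMonoidAlgebra.mapDomainRingHom (ZMod 2) Z

variable {V : Type} [DecidableEq V] [Fintype V]

section Edge

variable {P : Type} [Group P]

/-- an integral edge cocycle on the finite quotient: `e v p` belongs to the edge from `p` to `p * g v` -/
structure IsEv {G : SimpleGraph V} (D : PG G P) {I : Type} (e : V → P → I → ℤ) : Prop where
  inv : ∀ v p, e v p + e v (p * D.g v) = 0
  comm : ∀ u v, G.Adj u v → ∀ p, e u p + e v (p * D.g u) = e v p + e u (p * D.g v)

/-- the signed vector of the wall of the edge from `p` to `p * g v` -/
def ev {G : SimpleGraph V} (D : PG G P) {I : Type} [DecidableEq I] (ι : V → P → I) (v : V) (p : P) :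
    I → ℤ :=
  if D.b p v = 0 then Pi.single (ι v p) 1 else - Pi.single (ι v p) 1

variable {S : Type} [CommRing S] {n : Type} [Fintype n] [DecidableEq n]

/-- the edge matrices form a system of coefficients -/
structure IsEdg {G : SimpleGraph V} (D : PG G P) (M : V → P → Matrix n n S) : Prop where
  inv : ∀ v p, M v p * M v (p * D.g v) = 1
  comm : ∀ u v, G.Adj u v → ∀ p, M u p * M v (p * D.g u) = M v p * M u (p * D.g v)

/-- the operators on the functions `P → n → S` -/
def rM {G : SimpleGraph V} (D : PG G P) (M : V → P → Matrix n n S) (v : V) :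
    (P → n → S) →ₗ[S] (P → n → S) where
  toFun F p := (M v p).mulVec (F (p * D.g v))
  map_add' F F' := by
    funext p
    exact Matrix.mulVec_add (M v p) (F (p * D.g v)) (F' (p * D.g v))
  map_smul' c F := by
    funext p
    exact Matrix.mulVec_smul (M v p) c (F (p * D.g v))

theorem rM_apply {G : SimpleGraph V} (D : PG G P) (M : V → P → Matrix n n S) (v : V)
    (F : P → n → S) (p : P) : rM D M v F p = (M v p).mulVec (F (p * D.g v)) := rfl

end Edge

/-- the edge matrices with one row of the edge cocycle `e` -/
noncomputable def chiR {P I : Type} (e : V → P → I → ℤ) (v : V) (p : P) :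
    Matrix (Fin 1) (Fin 1) (RI I) := fun _ _ => ttR (e v p)

/-- the same over the field -/
noncomputable def chiK {P I : Type} (e : V → P → I → ℤ) (v : V) (p : P) :
    Matrix (Fin 1) (Fin 1) (KI I) := fun _ _ => tt (e v p)

/-- the dimension of the cycles of degree `d` with coefficients in the edge matrices `M` over a field -/
noncomputable def zM (K : Type) [Field K] {G : SimpleGraph V} {P : Type} [Group P] (D : PG G P)
    {n : Type} [Fintype n] [DecidableEq n] (M : V → P → Matrix n n K) (d : ℕ) : ℕ :=
  Module.finrank K (Zs K G d (rM D M))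

/-- the number of cells of degree `d` -/
noncomputable def cP {G : SimpleGraph V} {P : Type} [Group P] [Fintype P] (D : PG G P) (d : ℕ) : ℕ :=
  Module.finrank F2 (Ch (Sy (Cq G univ) (regP D.g)) d)

/-- the dimension of the homology of degree `i` with coefficients in the character of the edge cocycle `e` -/
noncomputable def hchi {G : SimpleGraph V} {P : Type} [Group P] [Fintype P] (D : PG G P) {I : Type}
    (e : V → P → I → ℤ) (i : ℕ) : ℤ :=
  (zM (KI I) D (chiK e) i : ℤ) + zM (KI I) D (chiK e) (i + 1) - cP D (i + 1)

/-- The growth of the character is minimal: it is at most the growth of all finite quotients -/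
def MinAt {G : SimpleGraph V} {P : Type} [Group P] [Fintype P] (D : PG G P) {I : Type}
    (e : V → P → I → ℤ) (i : ℕ) : Prop :=
  ∀ (P' : Type) [Group P'] [Fintype P'] (D' : PG G P'),
    (Fintype.card P' : ℤ) * hchi D e i ≤ Fintype.card P * hX (Cq G univ) (regP D'.g) i

end Pool.Agent.S9
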