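import Mathlib

/-!
# Project S9, block E: clearing the denominators of triangular matrices

`c x` upper triangular matrices over the fraction field `K` of `R` with diagonal entries in `R`, `x` in a finite
type: after conjugation with a diagonal matrix `d ^ i` the entries are in `R`.
-/

set_option autoImplicit false
set_option linter.unusedSectionVars false

open Finset

namespace Pool.Agent.S9

variable {R K : Type} [CommRing R] [IsDomain R] [Field K] [Algebra R K] [IsFractionRing R K]

/-- the matrix `diag (1, d, d ^ 2, …)` -/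
def dg {n : ℕ} (d : K) : Matrix (Fin n) (Fin n) K := Matrix.diagonal fun i => d ^ (i : ℕ)

theorem dg_mul_dg_inv {n : ℕ} {d : K} (hd : d ≠ 0) : dg (n := n) d * dg d⁻¹ = 1 := by
  unfold dg
  rw [Matrix.diagonal_mul_diagonal]
  ext i j
  rw [Matrix.diagonal_apply, Matrix.one_apply]
  split_ifs
  · rw [← mul_pow, mul_inv_cancel₀ hd, one_pow]
  · rfl

theorem dg_inv_mul_dg {n : ℕ} {d : K} (hd : d ≠ 0) : dg (n := n) d⁻¹ * dg d = 1 := by
  have h := dg_mul_dg_inv (n := n) (inv_ne_zero hd)
  rwa [inv_inv] at h

/-- **Clearing the denominators.** -/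
theorem exists_den {ι : Type} [Finite ι] {n : ℕ} (c : ι → Matrix (Fin n) (Fin n) K)
    (htri : ∀ x i j, j < i → c x i j = 0) (u : ι → Fin n → R)
    (hdiag : ∀ x i, c x i i = algebraMap R K (u x i)) :
    ∃ d : R, d ≠ 0 ∧ ∃ c' : ι → Matrix (Fin n) (Fin n) R,
      (∀ x i j, j < i → c' x i j = 0) ∧ (∀ x i, c' x i i = u x i) ∧
      ∀ x, dg (algebraMap R K d) * (c' x).map (algebraMap R K) = c x * dg (algebraMap R K d) := by
  classical
  cases nonempty_fintype ι
  obtain ⟨⟨d, hd⟩, h⟩ := IsLocalization.exist_integer_multiples_of_finite (nonZeroDivisors R)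
    (fun q : ι × Fin n × Fin n => c q.1 q.2.1 q.2.2)
  have h' : ∀ x i j, ∃ r : R, algebraMap R K r = algebraMap R K d * c x i j := by
    intro x i j
    obtain ⟨r, hr⟩ := h (x, i, j)
    refine ⟨r, ?_⟩
    rw [hr]
    exact Algebra.smul_def _ _
  choose e he using h'
  have hd0 : d ≠ 0 := nonZeroDivisors.ne_zero hd
  have hdK : algebraMap R K d ≠ 0 := by
    intro h0
    exact hd0 ((IsFractionRing.injective R K) (h0.trans (map_zero _).symm))
  refine ⟨d, hd0, fun x => Matrix.of fun i j =>
    if j < i then 0 else if i = j then u x i else d ^ ((j : ℕ) - (i : ℕ) - 1) * e x i j, ?_, ?_, ?_⟩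
  · intro x i j hij
    exact if_pos hij
  · intro x i
    exact (if_neg (lt_irrefl i)).trans (if_pos rfl)
  · intro x
    ext i j
    unfold dg
    rw [Matrix.diagonal_mul, Matrix.mul_diagonal, Matrix.map_apply]
    change algebraMap R K d ^ (i : ℕ) * algebraMap R K (if j < i then 0 else if i = j then u x i else
      d ^ ((j : ℕ) - (i : ℕ) - 1) * e x i j) = _
    rcases lt_trichotomy i j with hij | rfl | hij
    · rw [if_neg (not_lt.2 hij.le), if_neg hij.ne, map_mul, map_pow, he]
      have h1 : (j : ℕ) = (i : ℕ) + (((j : ℕ) - (i : ℕ) - 1) + 1) := by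
        have : (i : ℕ) < (j : ℕ) := hij
        omega
      have h2 : algebraMap R K d ^ (j : ℕ) = algebraMap R K d ^ (i : ℕ) *
          (algebraMap R K d ^ ((j : ℕ) - (i : ℕ) - 1) * algebraMap R K d) := by
        conv_lhs => rw [h1]
        rw [pow_add, pow_succ]
      rw [h2]
      ring
    · rw [if_neg (lt_irrefl i), if_pos rfl, hdiag, mul_comm]
    · rw [if_pos hij, map_zero, mul_zero, htri x i j hij, zero_mul]

/-- the products of the new matrices -/
theorem den_mul {n : ℕ} {d : K} {a b : Matrix (Fin n) (Fin n) K}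
    {a' b' : Matrix (Fin n) (Fin n) R}
    (ha : dg d * a'.map (algebraMap R K) = a * dg d) (hb : dg d * b'.map (algebraMap R K) = b * dg d) :
    dg d * (a' * b').map (algebraMap R K) = a * b * dg d := by
  rw [Matrix.map_mul, ← mul_assoc, ha, mul_assoc, hb, mul_assoc]

/-- the new matrices are determined by the old ones -/
theorem den_inj {n : ℕ} {d : K} (hd : d ≠ 0) {a : Matrix (Fin n) (Fin n) K}
    {a' b' : Matrix (Fin n) (Fin n) R}
    (ha : dg d * a'.map (algebraMap R K) = a * dg d) (hb : dg d * b'.map (algebraMap R K) = a * dg d) :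
    a' = b' := by
  have h1 : a'.map (algebraMap R K) = b'.map (algebraMap R K) := by
    have h2 : dg (n := n) d⁻¹ * (dg d * a'.map (algebraMap R K)) =
        dg d⁻¹ * (dg d * b'.map (algebraMap R K)) := by rw [ha, hb]
    rwa [← mul_assoc, ← mul_assoc, dg_inv_mul_dg hd, one_mul, one_mul] at h2
  ext i j
  refine (IsFractionRing.injective R K) ?_
  have h3 := congrFun (congrFun h1 i) j
  rwa [Matrix.map_apply, Matrix.map_apply] at h3

theorem den_one {n : ℕ} (d : K) :
    dg d * (1 : Matrix (Fin n) (Fin n) R).map (algebraMap R K) = 1 * dg d := by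
  rw [Matrix.map_one _ (map_zero _) (map_one _), mul_one, one_mul]

end Pool.Agent.S9
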