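import Pool.Agent.S9.Defs

/-!
# Project S9, block E: triangular bases of triangular modules
-/

set_option autoImplicit false
set_option linter.unusedSectionVars false

open Finset

namespace Pool.Agent.S9

section Flag

variable {K : Type} [Field K] {H : Type} [Group H] {N : Type} [AddCommGroup N] [Module K N]

/-- the submodule `S` has a triangular basis with weights in `Λ` -/
private def TB (Λ : Subgroup Kˣ) (ρ : H →* Module.End K N) (S : Submodule K N) : Prop :=
  ∃ (n : ℕ) (b : Fin n → N) (lam : Fin n → H →* Kˣ), LinearIndependent K b ∧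
    Submodule.span K (Set.range b) = S ∧ (∀ a g, lam a g ∈ Λ) ∧
    ∀ a g, ρ g (b a) - (lam a g : K) • b a ∈ Submodule.span K (b '' {c | c < a})

private theorem tb_add {Λ : Subgroup Kˣ} {ρ : H →* Module.End K N} {S : Submodule K N}
    (hS : TB Λ ρ S) {y : N} (hy : y ∉ S) (l : H →* Kˣ) (hl : ∀ g, l g ∈ Λ)
    (hl2 : ∀ g, ρ g y - (l g : K) • y ∈ S) : TB Λ ρ (S ⊔ Submodule.span K {y}) := by
  obtain ⟨n, b, lam, h1, h2, h3, h4⟩ := hS
  refine ⟨n + 1, Fin.snoc (α := fun _ => N) b y, Fin.snoc (α := fun _ => H →* Kˣ) lam l, ?_, ?_, ?_, ?_⟩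
  · rw [linearIndependent_finSnoc]
    exact ⟨h1, by rw [h2]; exact hy⟩
  · have h5 : Set.range (Fin.snoc (α := fun _ => N) b y) = Set.range b ∪ {y} := by
      ext z
      constructor
      · rintro ⟨a, rfl⟩
        refine Fin.lastCases ?_ (fun a => ?_) a
        · rw [Fin.snoc_last]
          exact Or.inr rfl
        · rw [Fin.snoc_castSucc]
          exact Or.inl ⟨a, rfl⟩
      · rintro (⟨a, rfl⟩ | h)
        · exact ⟨a.castSucc, by rw [Fin.snoc_castSucc]⟩
        · rw [Set.mem_singleton_iff] at h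
          exact ⟨Fin.last n, by rw [Fin.snoc_last, h]⟩
    rw [h5, Submodule.span_union, h2]
  · intro a g
    refine Fin.lastCases ?_ (fun a => ?_) a
    · rw [Fin.snoc_last]
      exact hl g
    · rw [Fin.snoc_castSucc]
      exact h3 a g
  · intro a g
    refine Fin.lastCases ?_ (fun a => ?_) a
    · rw [Fin.snoc_last, Fin.snoc_last]
      have h6 : S ≤ Submodule.span K (Fin.snoc (α := fun _ => N) b y '' {c | c < Fin.last n}) := by
        rw [← h2, Submodule.span_le]
        rintro _ ⟨c, rfl⟩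
        refine Submodule.subset_span ⟨c.castSucc, ?_, ?_⟩
        · exact Fin.castSucc_lt_last c
        · rw [Fin.snoc_castSucc]
      exact h6 (hl2 g)
    · rw [Fin.snoc_castSucc, Fin.snoc_castSucc]
      refine Submodule.span_mono ?_ (h4 a g)
      rintro _ ⟨c, hc, rfl⟩
      refine ⟨c.castSucc, ?_, ?_⟩
      · exact Fin.castSucc_lt_castSucc_iff.2 hc
      · rw [Fin.snoc_castSucc]

private theorem tb_up [FiniteDimensional K N] {Λ : Subgroup Kˣ} {ρ : H →* Module.End K N}
    {F F' : Submodule K N} (lam : H →* Kˣ) (hl : ∀ g, lam g ∈ Λ)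
    (hl2 : ∀ g, ∀ y ∈ F', ρ g y - (lam g : K) • y ∈ F) (m : ℕ) : ∀ S : Submodule K N,
    F ≤ S → S ≤ F' → TB Λ ρ S → Module.finrank K F' = Module.finrank K S + m → TB Λ ρ F' := by
  induction m with
  | zero =>
    intro S _ h2 h3 h4
    have h5 : S = F' := Submodule.eq_of_le_of_finrank_eq h2 (by omega)
    rw [← h5]
    exact h3
  | succ m ih =>
    intro S h1 h2 h3 h4
    have h5 : ∃ y ∈ F', y ∉ S := by
      by_contra h
      push Not at h
      have h6 : F' ≤ S := h
      have h7 := Submodule.finrank_mono h6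
      omega
    obtain ⟨y, hy, hyS⟩ := h5
    have h6 := tb_add h3 hyS lam hl fun g => h1 (hl2 g y hy)
    have h7 : S ⊔ Submodule.span K {y} ≤ F' :=
      sup_le h2 ((Submodule.span_singleton_le_iff_mem y F').2 hy)
    refine ih (S ⊔ Submodule.span K {y}) (h1.trans le_sup_left) h7 h6 ?_
    have h8 : Module.finrank K (S ⊔ Submodule.span K {y} : Submodule K N) =
        Module.finrank K S + 1 := by
      have h9 := Submodule.finrank_sup_add_finrank_inf_eq S (Submodule.span K {y})
      have h10 : S ⊓ Submodule.span K {y} = ⊥ := by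
        rw [Submodule.eq_bot_iff]
        intro z hz
        obtain ⟨hz1, hz2⟩ := Submodule.mem_inf.1 hz
        obtain ⟨c, rfl⟩ := Submodule.mem_span_singleton.1 hz2
        by_cases hc : c = 0
        · rw [hc, zero_smul]
        · exact absurd ((Submodule.smul_mem_iff S hc).1 hz1) hyS
      have h11 : y ≠ 0 := fun h => hyS (by rw [h]; exact S.zero_mem)
      rw [h10, finrank_bot, add_zero, finrank_span_singleton h11] at h9
      exact h9
    omega

/-- the triangular basis for a flag up to the step `j` -/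
private theorem tb_flag [FiniteDimensional K N] {Λ : Subgroup Kˣ} {ρ : H →* Module.End K N}
    {F : ℕ → Submodule K N} (hF : Monotone F) (h0 : F 0 = ⊥)
    (hs : ∀ j, ∃ lam : H →* Kˣ, (∀ g, lam g ∈ Λ) ∧ ∀ g, ∀ y ∈ F (j + 1),
      ρ g y - (lam g : K) • y ∈ F j) (j : ℕ) : TB Λ ρ (F j) := by
  induction j with
  | zero =>
    refine ⟨0, Fin.elim0, Fin.elim0, linearIndependent_empty_type, ?_, fun a => a.elim0,
      fun a => a.elim0⟩
    rw [h0]
    have h : Set.range (Fin.elim0 : Fin 0 → N) = ∅ := Set.range_eq_empty _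
    rw [h, Submodule.span_empty]
  | succ j ih =>
    obtain ⟨lam, h1, h2⟩ := hs j
    have h3 := Submodule.finrank_mono (hF (Nat.le_succ j))
    obtain ⟨m, hm⟩ := Nat.exists_eq_add_of_le h3
    exact tb_up lam h1 h2 m (F j) le_rfl (hF (Nat.le_succ j)) ih hm

/-- **Triangular bases.** The kernel of the invariant form `π` comes first, the last vector has the value `1`. -/
theorem tri_basis [FiniteDimensional K N] {Λ : Subgroup Kˣ} {ρ : H →* Module.End K N}
    (hT : Tri Λ ρ) (π : N →ₗ[K] K) (hπ : Function.Surjective π) (hπ2 : ∀ g y, π (ρ g y) = π y) :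
    ∃ (n : ℕ) (b : Module.Basis (Fin (n + 1)) K N) (lam : Fin (n + 1) → H →* Kˣ),
      (∀ a g, lam a g ∈ Λ) ∧
      (∀ a g, ρ g (b a) - (lam a g : K) • b a ∈ Submodule.span K (b '' {c | c < a})) ∧
      lam (Fin.last n) = 1 ∧ (∀ c, c < Fin.last n → π (b c) = 0) ∧ π (b (Fin.last n)) = 1 := by
  obtain ⟨m, F, hF, h0, hm, hs⟩ := hT
  -- the flag of the kernel
  have hker : TB Λ ρ (LinearMap.ker π) := by
    have h1 := tb_flag (Λ := Λ) (ρ := ρ) (F := fun j => F j ⊓ LinearMap.ker π)
      (fun a b h => inf_le_inf_right _ (hF h)) (by simp [h0]) (by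
        intro j
        obtain ⟨lam, h2, h3⟩ := hs j
        refine ⟨lam, h2, fun g y hy => ?_⟩
        obtain ⟨hy1, hy2⟩ := Submodule.mem_inf.1 hy
        refine Submodule.mem_inf.2 ⟨h3 g y hy1, ?_⟩
        rw [LinearMap.mem_ker] at hy2 ⊢
        rw [map_sub, map_smul, hπ2, hy2, smul_zero, sub_zero]) m
    have h2 : F m ⊓ LinearMap.ker π = LinearMap.ker π := by rw [hm, top_inf_eq]
    rw [← h2]
    exact h1
  obtain ⟨y, hy⟩ := hπ 1
  have hyk : y ∉ LinearMap.ker π := by
    rw [LinearMap.mem_ker, hy]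
    exact one_ne_zero
  obtain ⟨n, b, lam, h1, h2, h3, h4⟩ := hker
  have hli : LinearIndependent K (Fin.snoc (α := fun _ => N) b y) := by
    rw [linearIndependent_finSnoc]
    exact ⟨h1, by rw [h2]; exact hyk⟩
  have hsp : ⊤ ≤ Submodule.span K (Set.range (Fin.snoc (α := fun _ => N) b y)) := by
    intro z _
    have h5 : z - π z • y ∈ LinearMap.ker π := by
      rw [LinearMap.mem_ker, map_sub, map_smul, hy, smul_eq_mul, mul_one, sub_self]
    rw [← h2] at h5
    have h6 : Submodule.span K (Set.range b) ≤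
        Submodule.span K (Set.range (Fin.snoc (α := fun _ => N) b y)) := by
      rw [Submodule.span_le]
      rintro _ ⟨c, rfl⟩
      exact Submodule.subset_span ⟨c.castSucc, by rw [Fin.snoc_castSucc]⟩
    have h7 : y ∈ Submodule.span K (Set.range (Fin.snoc (α := fun _ => N) b y)) :=
      Submodule.subset_span ⟨Fin.last n, by rw [Fin.snoc_last]⟩
    have h8 : z = (z - π z • y) + π z • y := by rw [sub_add_cancel]
    rw [h8]
    exact Submodule.add_mem _ (h6 h5) (Submodule.smul_mem _ _ h7)
  refine ⟨n, Module.Basis.mk hli hsp, Fin.snoc (α := fun _ => H →* Kˣ) lam 1, ?_, ?_, ?_, ?_, ?_⟩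
  · intro a g
    refine Fin.lastCases ?_ (fun a => ?_) a
    · rw [Fin.snoc_last]
      exact Λ.one_mem
    · rw [Fin.snoc_castSucc]
      exact h3 a g
  · intro a g
    rw [Module.Basis.coe_mk]
    refine Fin.lastCases ?_ (fun a => ?_) a
    · rw [Fin.snoc_last, Fin.snoc_last, MonoidHom.one_apply, Units.val_one, one_smul]
      have h6 : LinearMap.ker π ≤
          Submodule.span K (Fin.snoc (α := fun _ => N) b y '' {c | c < Fin.last n}) := by
        rw [← h2, Submodule.span_le]
        rintro _ ⟨c, rfl⟩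
        refine Submodule.subset_span ⟨c.castSucc, ?_, ?_⟩
        · exact Fin.castSucc_lt_last c
        · rw [Fin.snoc_castSucc]
      refine h6 ?_
      rw [LinearMap.mem_ker, map_sub, hπ2, sub_self]
    · rw [Fin.snoc_castSucc, Fin.snoc_castSucc]
      refine Submodule.span_mono ?_ (h4 a g)
      rintro _ ⟨c, hc, rfl⟩
      refine ⟨c.castSucc, ?_, ?_⟩
      · exact Fin.castSucc_lt_castSucc_iff.2 hc
      · rw [Fin.snoc_castSucc]
  · rw [Fin.snoc_last]
  · intro c
    rw [Module.Basis.coe_mk]
    refine Fin.lastCases (fun h => absurd h (lt_irrefl _)) (fun c _ => ?_) c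
    rw [Fin.snoc_castSucc]
    have h5 : b c ∈ LinearMap.ker π := by
      rw [← h2]
      exact Submodule.subset_span ⟨c, rfl⟩
    exact h5
  · rw [Module.Basis.coe_mk, Fin.snoc_last]
    exact hy

/-- the matrices in the triangular basis -/
theorem toMatrix_tri {n : ℕ} {ρ : H →* Module.End K N} {b : Module.Basis (Fin n) K N}
    {lam : Fin n → H →* Kˣ}
    (h : ∀ a g, ρ g (b a) - (lam a g : K) • b a ∈ Submodule.span K (b '' {c | c < a})) (g : H) :
    (∀ c a, a < c → LinearMap.toMatrix b b (ρ g) c a = 0) ∧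
      ∀ a, LinearMap.toMatrix b b (ρ g) a a = lam a g := by
  have key : ∀ a c : Fin n, a ≤ c → b.repr (ρ g (b a) - (lam a g : K) • b a) c = 0 := by
    intro a c hac
    have h1 := h a g
    have h2 : ∀ y ∈ Submodule.span K (b '' {c | c < a}), b.repr y c = 0 := by
      intro y hy
      induction hy using Submodule.span_induction with
      | mem y hy =>
        obtain ⟨d, hd, rfl⟩ := hy
        rw [Module.Basis.repr_self]
        exact Finsupp.single_eq_of_ne (by
          intro h3
          rw [h3] at hac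
          exact absurd hd (not_lt.2 hac))
      | zero => rw [map_zero]; rfl
      | add x y _ _ hx hy => rw [map_add, Finsupp.add_apply, hx, hy, add_zero]
      | smul r x _ hx => rw [map_smul, Finsupp.smul_apply, hx, smul_zero]
    exact h2 _ h1
  constructor
  · intro c a hac
    rw [LinearMap.toMatrix_apply]
    have h1 := key a c hac.le
    rw [map_sub, map_smul, Finsupp.sub_apply, Finsupp.smul_apply, Module.Basis.repr_self,
      Finsupp.single_eq_of_ne hac.ne', smul_zero, sub_zero] at h1
    exact h1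
  · intro a
    rw [LinearMap.toMatrix_apply]
    have h1 := key a a le_rfl
    rw [map_sub, map_smul, Finsupp.sub_apply, Finsupp.smul_apply, Module.Basis.repr_self,
      Finsupp.single_eq_same, smul_eq_mul, mul_one, sub_eq_zero] at h1
    exact h1

/-- **Triangular matrices.** `tri_basis` and `toMatrix_tri` in one statement. -/
theorem exists_tri [FiniteDimensional K N] {Λ : Subgroup Kˣ} (ρ : H →* Module.End K N)
    (hρ : Tri Λ ρ) (π : N →ₗ[K] K) (hπ : Function.Surjective π) (hinv : ∀ g y, π (ρ g y) = π y) :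
    ∃ (n : ℕ) (b : Module.Basis (Fin (n + 1)) K N) (lam : Fin (n + 1) → H →* Kˣ),
      (∀ a g, lam a g ∈ Λ) ∧
      (∀ g, ∀ a c : Fin (n + 1), c < a → LinearMap.toMatrix b b (ρ g) a c = 0) ∧
      (∀ g a, LinearMap.toMatrix b b (ρ g) a a = lam a g) ∧
      ∀ a : Fin (n + 1), π (b a) = if a = Fin.last n then 1 else 0 := by
  obtain ⟨n, b, lam, h1, h2, -, h4, h5⟩ := tri_basis hρ π hπ hinv
  refine ⟨n, b, lam, h1, fun g a c hca => (toMatrix_tri h2 g).1 a c hca,
    fun g a => (toMatrix_tri h2 g).2 a, fun a => ?_⟩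
  by_cases h : a = Fin.last n
  · rw [if_pos h, h, h5]
  · rw [if_neg h]
    exact h4 a (lt_of_le_of_ne (Fin.le_last a) h)

end Flag

end Pool.Agent.S9
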