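import Pool.Agent.S9.DictZ

/-!
# Project S9, block E: the weights of the squares of the tautological character

Every homomorphism to the squares of the monomials is the monomial of `2 • Y` of the abelianisation, and `1 + 2 Y` is
injective.
-/

set_option autoImplicit false
set_option linter.unusedSectionVars false

open Finset

namespace Pool.Agent.S9

theorem ttR_add {I : Type} (a b : I → ℤ) : ttR (a + b) = ttR a * ttR b := by
  unfold ttR
  rw [AddMonoidAlgebra.single_mul_single, mul_one]

theorem ttR_zero {I : Type} : ttR (0 : I → ℤ) = 1 := rfl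

theorem ttR_inj {I : Type} {a b : I → ℤ} (h : ttR a = ttR b) : a = b :=
  AddMonoidAlgebra.single_left_injective (one_ne_zero (α := ZMod 2)) h

theorem tt_inj {I : Type} {a b : I → ℤ} (h : tt a = tt b) : a = b :=
  ttR_inj (IsFractionRing.injective (RI I) (KI I) h)

/-- `1 + 2 Y` is injective -/
theorem inj_one_two {r : ℕ} (Y : (Fin r → ℤ) →+ (Fin r → ℤ)) :
    Function.Injective (AddMonoidHom.id (Fin r → ℤ) + 2 • Y : (Fin r → ℤ) →+ (Fin r → ℤ)) := by
  rw [injective_iff_map_eq_zero]
  intro x hx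
  have key : ∀ k : ℕ, ∃ y : Fin r → ℤ, x = (2 ^ k : ℤ) • y ∧ y + 2 • Y y = 0 := by
    intro k
    induction k with
    | zero =>
      refine ⟨x, ?_, hx⟩
      rw [pow_zero, one_smul]
    | succ k ih =>
      obtain ⟨y, h1, h2⟩ := ih
      refine ⟨-Y y, ?_, ?_⟩
      · rw [h1]
        funext i
        have h3 : y i + (Y y i + Y y i) = 0 := by
          have h4 := congrFun h2 i
          rw [two_nsmul] at h4
          exact h4
        have h4 : y i = 2 * -Y y i := by linarith
        show (2 ^ k : ℤ) * y i = 2 ^ (k + 1) * -Y y i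
        rw [pow_succ, mul_assoc, ← h4]
      · have h5 : y = 2 • -Y y := by
          have h6 := eq_neg_of_add_eq_zero_left h2
          rw [← smul_neg] at h6
          exact h6
        have h7 : 2 • (-Y y + 2 • Y (-Y y)) = 0 := by
          rw [smul_add, ← h5, ← map_nsmul, ← h5]
          exact h2
        funext i
        have h8 := congrFun h7 i
        rw [two_nsmul] at h8
        rw [Pi.add_apply, Pi.zero_apply] at h8
        rw [Pi.zero_apply]
        linarith
  funext i
  rw [Pi.zero_apply]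
  by_contra h
  obtain ⟨y, h1, -⟩ := key (x i).natAbs
  have h2 : x i = 2 ^ (x i).natAbs * y i := by
    have h3 := congrFun h1 i
    rw [Pi.smul_apply, smul_eq_mul] at h3
    exact h3
  have h3 : y i ≠ 0 := by
    intro h4
    rw [h4, mul_zero] at h2
    exact h h2
  have h4 : (x i).natAbs = 2 ^ (x i).natAbs * (y i).natAbs := by
    have h5 := congrArg Int.natAbs h2
    rw [Int.natAbs_mul, Int.natAbs_pow] at h5
    exact h5
  have h5 : 0 < (y i).natAbs := Int.natAbs_pos.2 h3
  have h6 : (x i).natAbs < 2 ^ (x i).natAbs := Nat.lt_two_pow_self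
  have h7 : 2 ^ (x i).natAbs * 1 ≤ 2 ^ (x i).natAbs * (y i).natAbs := Nat.mul_le_mul_left _ h5
  rw [← h4, mul_one] at h7
  exact absurd h7 (not_le.2 h6)

/-- the values of the squares -/
theorem mem_sqr {H : Type} [Group H] {I : Type} (ab : H →* Multiplicative (I → ℤ))
    (χ : H →* (KI I)ˣ) (hχ : ∀ g, (χ g : KI I) = tt (Multiplicative.toAdd (ab g)))
    (u : (KI I)ˣ) (hu : u ∈ sqr χ) : ∃ a : I → ℤ, (u : KI I) = tt (2 • a) := by
  unfold sqr at hu
  induction hu using Subgroup.closure_induction with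
  | mem x hx =>
    obtain ⟨g, rfl⟩ := hx
    refine ⟨Multiplicative.toAdd (ab g), ?_⟩
    show ((χ g ^ 2 : (KI I)ˣ) : KI I) = _
    rw [Units.val_pow_eq_pow_val, hχ, two_nsmul, tt_add, pow_two]
  | one =>
    refine ⟨0, ?_⟩
    rw [smul_zero, tt_zero, Units.val_one]
  | mul x y _ _ ihx ihy =>
    obtain ⟨a, ha⟩ := ihx
    obtain ⟨b, hb⟩ := ihy
    refine ⟨a + b, ?_⟩
    rw [Units.val_mul, ha, hb, ← tt_add, smul_add]
  | inv x _ ih =>
    obtain ⟨a, ha⟩ := ih
    refine ⟨-a, ?_⟩
    refine Units.inv_eq_of_mul_eq_one_right ?_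
    rw [ha, ← tt_add, ← smul_add, add_neg_cancel, smul_zero, tt_zero]

theorem exists_wt {H : Type} [Group H] {r : ℕ} (ab : H →* Multiplicative (Fin r → ℤ))
    (hs : Function.Surjective ab)
    (hf : ∀ f : H →* Multiplicative ℤ, ∀ g, ab g = 1 → f g = 1)
    (χ : H →* (KI (Fin r))ˣ)
    (hχ : ∀ g, (χ g : KI (Fin r)) = tt (Multiplicative.toAdd (ab g)))
    (lam : H →* (KI (Fin r))ˣ) (hl : ∀ g, lam g ∈ sqr χ) :
    ∃ Y : (Fin r → ℤ) →+ (Fin r → ℤ),
      (∀ g, (lam g : KI (Fin r)) = tt (2 • Y (Multiplicative.toAdd (ab g)))) ∧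
      Function.Injective (AddMonoidHom.id (Fin r → ℤ) + 2 • Y : (Fin r → ℤ) →+ (Fin r → ℤ)) := by
  choose a ha using fun g => mem_sqr ab χ hχ (lam g) (hl g)
  have h2 : ∀ x y : Fin r → ℤ, 2 • x = 2 • y → x = y := by
    intro x y h
    funext i
    have h3 := congrFun h i
    simp only [Pi.smul_apply, nsmul_eq_mul] at h3
    push_cast at h3
    linarith
  have hm : ∀ g h, a (g * h) = a g + a h := by
    intro g h
    refine h2 _ _ (tt_inj ?_)
    rw [← ha, map_mul, Units.val_mul, ha, ha, ← tt_add, smul_add]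
  have h1 : a 1 = 0 := by
    have h3 := hm 1 1
    rw [mul_one] at h3
    exact left_eq_add.1 h3
  have hk : ∀ g, ab g = 1 → a g = 0 := by
    intro g hg
    funext i
    let f : H →* Multiplicative ℤ :=
      { toFun := fun g => Multiplicative.ofAdd (a g i)
        map_one' := by
          show Multiplicative.ofAdd (a 1 i) = 1
          rw [h1]
          rfl
        map_mul' := fun g h => by
          show Multiplicative.ofAdd (a (g * h) i) = _
          rw [hm]
          rfl }
    have h3 : Multiplicative.ofAdd (a g i) = 1 := hf f g hg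
    exact Multiplicative.ofAdd.injective h3
  have he : ∀ g h, ab g = ab h → a g = a h := by
    intro g h hgh
    have h3 : a (g * h⁻¹ * h) = a (g * h⁻¹) + a h := hm _ _
    rw [inv_mul_cancel_right, hk (g * h⁻¹) (by rw [map_mul, map_inv, hgh, mul_inv_cancel]), zero_add] at h3
    exact h3
  choose s hs' using fun x : Fin r → ℤ => hs (Multiplicative.ofAdd x)
  have hY : ∀ x y, a (s (x + y)) = a (s x) + a (s y) := by
    intro x y
    rw [← hm]
    refine he _ _ ?_
    rw [map_mul, hs', hs', hs', ofAdd_add]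
  let Y : (Fin r → ℤ) →+ (Fin r → ℤ) := AddMonoidHom.mk' (fun x => a (s x)) hY
  refine ⟨Y, fun g => ?_, inj_one_two Y⟩
  rw [ha g]
  have h3 : Y (Multiplicative.toAdd (ab g)) = a g := by
    show a (s (Multiplicative.toAdd (ab g))) = a g
    refine he _ _ ?_
    rw [hs', ofAdd_toAdd]
  rw [h3]

end Pool.Agent.S9
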