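import Pool.Agent.S9.E.Mat
import Pool.Agent.S9.E.Red
import Pool.Agent.S9.E.Lim

/-!
# Project S9, block E: the limit
-/

set_option autoImplicit false
set_option linter.unusedSectionVars false

open Finset

namespace Pool.Agent.S9

open Pool.Agent.H77.SW Pool.Agent.H19.SR Pool.Agent.H73.GC

variable {V : Type} [DecidableEq V] [Fintype V] {P : Type} [Group P] [Fintype P]
  {I : Type} [Fintype I] {n : ℕ}

/-- **The Hilbert-Kunz limit** -/
theorem box {G : SimpleGraph V} (D : PG G P) (M : V → P → Matrix (Fin n) (Fin n) (RI I)) (d : ℕ)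
    (ε : ℝ) (hε : 0 < ε) : ∃ k₀ : ℕ, ∀ k ≥ k₀,
      (Module.finrank (ZMod 2) (Zs (ZMod 2) G d (rk D M k)) : ℝ) ≤
        ((zM (KI I) D (fun v p => (M v p).map (algebraMap (RI I) (KI I))) d : ℝ) + ε) *
          2 ^ (k * Fintype.card I) := by
  classical
  obtain ⟨k₀, h₀⟩ := rank_lim (BM D M d) ε hε
  refine ⟨k₀, fun k hk => ?_⟩
  have h1 := h₀ k hk
  have hfin : Finite (RK I k) := finite_RK k
  have h2 := zs_eq_ker (S := RK I k) D (fun v p => (M v p).map (redR I k)) d
  have h3 := zM_eq D (fun v p => (M v p).map (algebraMap (RI I) (KI I))) d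
  rw [BM_map] at h1
  rw [BM_map] at h1
  have h4 : (Module.finrank (ZMod 2) (Zs (ZMod 2) G d (rk D M k)) : ℝ) +
      (Module.finrank (ZMod 2) (LinearMap.range ((BM D (fun v p => (M v p).map (redR I k)) d).mulVecLin.restrictScalars (ZMod 2))) : ℝ) =
      (Fintype.card (Finset V × P × Fin n) : ℝ) * 2 ^ (k * Fintype.card I) := by
    have h5 := finrank_RK (I := I) k
    rw [h5] at h2
    exact_mod_cast h2
  have h5 : (zM (KI I) D (fun v p => (M v p).map (algebraMap (RI I) (KI I))) d : ℝ) +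
      ((BM D (fun v p => (M v p).map (algebraMap (RI I) (KI I))) d).rank : ℝ) =
      (Fintype.card (Finset V × P × Fin n) : ℝ) := by exact_mod_cast h3
  rw [← h5] at h4
  nlinarith [h1, h4]

end Pool.Agent.S9
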