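import Pool.Agent.S9.E.Mat
import Pool.Agent.S9.E.Lim

/-!
# Project S9, block E: base change and specialisation
-/

set_option autoImplicit false
set_option linter.unusedSectionVars false

open Finset

namespace Pool.Agent.S9

open Pool.Agent.H77.SW Pool.Agent.H19.SR Pool.Agent.H73.GC

variable {V : Type} [DecidableEq V] [Fintype V] {P : Type} [Group P] [Fintype P]
  {I : Type} [Fintype I] {n : ℕ}

private theorem Base_chiK (e : V → P → I → ℤ) :
    (fun v p => (chiR e v p).map (algebraMap (RI I) (KI I))) = chiK e := rfl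

private theorem Base_sub (Z : (I → ℤ) →+ (I → ℤ)) (a : I → ℤ) : subR Z (ttR a) = ttR (Z a) := by
  unfold subR ttR
  exact AddMonoidAlgebra.mapDomain_single

private theorem Base_aug (a : I → ℤ) : augR I (ttR a) = 1 := by
  unfold augR ttR
  rw [AddMonoidAlgebra.liftNCRingHom_single, map_one, MonoidHom.one_apply, mul_one]

/-- **Base change**: `Mat`, `rank_sub` (`BM D (chiR (Z ∘ e)) = (BM D (chiR e)).map (subR Z)`). -/
theorem zM_base {G : SimpleGraph V} (D : PG G P) (e : V → P → I → ℤ) (Z : (I → ℤ) →+ (I → ℤ))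
    (hZ : Function.Injective Z) (d : ℕ) :
    zM (KI I) D (chiK fun v p => Z (e v p)) d = zM (KI I) D (chiK e) d := by
  classical
  have h1 := zM_eq (K := KI I) D (chiK fun v p => Z (e v p)) d
  have h2 := zM_eq (K := KI I) D (chiK e) d
  have h3 : BM D (chiK e) d = (BM D (chiR e) d).map (algebraMap (RI I) (KI I)) := by
    rw [BM_map, Base_chiK]
  have h4 : BM D (chiR fun v p => Z (e v p)) d = (BM D (chiR e) d).map (subR Z) := by
    rw [BM_map]
    congr 1
    funext v p a b
    exact (Base_sub Z (e v p)).symm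
  have h5 : BM D (chiK fun v p => Z (e v p)) d =
      ((BM D (chiR e) d).map (subR Z)).map (algebraMap (RI I) (KI I)) := by
    rw [← h4, BM_map, Base_chiK]
  have h6 := rank_sub Z hZ (BM D (chiR e) d)
  rw [← h3, ← h5] at h6
  omega

private theorem Base_one {G : SimpleGraph V} (D : PG G P) (d : ℕ) :
    zM (ZMod 2) D (fun _ _ => (1 : Matrix (Fin 1) (Fin 1) (ZMod 2))) d = dz (ZMod 2) d D := by
  classical
  unfold zM dz
  let L : (Finset V → P → ZMod 2) ≃ₗ[ZMod 2] (Finset V → P → Fin 1 → ZMod 2) :=
    LinearEquiv.piCongrRight fun _ => LinearEquiv.piCongrRight fun _ =>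
      (LinearEquiv.funUnique (Fin 1) (ZMod 2) (ZMod 2)).symm
  have hL : ∀ z σ p a, L z σ p a = z σ p := fun _ _ _ _ => rfl
  have h1 : Zs (ZMod 2) G d (rM D fun _ _ => (1 : Matrix (Fin 1) (Fin 1) (ZMod 2))) =
      (Zs (ZMod 2) G d (rP (ZMod 2) D)).map L.toLinearMap := by
    ext z
    constructor
    · rintro ⟨h1, h2, h3⟩
      refine ⟨fun σ p => z σ p 0, ⟨fun σ hσ => h1 σ fun h0 => hσ ?_, fun σ v hv => ?_, fun κ => ?_⟩, ?_⟩
      · funext p
        exact congrFun (congrFun h0 p) 0
      · funext p
        have h4 := congrFun (congrFun (h2 σ v hv) p) 0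
        rw [rM_apply, Matrix.one_mulVec] at h4
        exact h4
      · funext p
        have h4 := congrFun (congrFun (h3 κ) p) 0
        rw [Finset.sum_apply, Finset.sum_apply] at h4
        rw [Finset.sum_apply]
        exact h4
      · funext σ p a
        rw [Subsingleton.elim a 0]
        rfl
    · rintro ⟨z, ⟨h1, h2, h3⟩, rfl⟩
      refine ⟨fun σ hσ => h1 σ fun h0 => hσ ?_, fun σ v hv => ?_, fun κ => ?_⟩
      · funext p a
        exact congrFun h0 p
      · funext p a
        rw [rM_apply, Matrix.one_mulVec]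
        exact congrFun (h2 σ v hv) p
      · funext p a
        have h4 := congrFun (h3 κ) p
        rw [Finset.sum_apply] at h4
        rw [Finset.sum_apply, Finset.sum_apply]
        exact h4
  rw [h1]
  exact LinearEquiv.finrank_map_eq L _

/-- **Specialisation** `t = 1`: `Mat`, `rank_spec` with `augR I`, `hX_reg`. -/
theorem spec {G : SimpleGraph V} (D : PG G P) (e : V → P → I → ℤ) (i : ℕ) :
    hchi D e i ≤ hX (Cq G univ) (regP D.g) i := by
  classical
  have key : ∀ d, zM (KI I) D (chiK e) d ≤ dz (ZMod 2) d D := by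
    intro d
    have h1 := zM_eq (K := KI I) D (chiK e) d
    have h2 := zM_eq (K := ZMod 2) D (fun _ _ => (1 : Matrix (Fin 1) (Fin 1) (ZMod 2))) d
    rw [Base_one] at h2
    have h3 : BM D (chiK e) d = (BM D (chiR e) d).map (algebraMap (RI I) (KI I)) := by
      rw [BM_map, Base_chiK]
    have h4 : BM D (fun _ _ => (1 : Matrix (Fin 1) (Fin 1) (ZMod 2))) d =
        (BM D (chiR e) d).map (augR I) := by
      rw [BM_map]
      congr 1
      funext v p a b
      rw [Subsingleton.elim a b, Matrix.one_apply_eq]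
      exact (Base_aug (e v p)).symm
    have h5 := rank_spec (augR I) (BM D (chiR e) d)
    rw [← h3, ← h4] at h5
    omega
  rw [hX_reg]
  unfold hchi cP
  have h1 := key i
  have h2 := key (i + 1)
  omega

end Pool.Agent.S9
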