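import Pool.Agent.S9.E.Defs

/-!
# Project S9, block E: triangular coefficients
-/

set_option autoImplicit false
set_option linter.unusedSectionVars false

open Finset

namespace Pool.Agent.S9

open Pool.Agent.H77.SW Pool.Agent.H19.SR Pool.Agent.H73.GC

variable {V : Type} [DecidableEq V] [Fintype V] {P : Type} [Group P] [Fintype P] {K : Type} [Field K]
  {n : ℕ}

/-- the diagonal entry as a matrix with one row -/
def dM (M : V → P → Matrix (Fin n) (Fin n) K) (a : Fin n) (v : V) (p : P) : Matrix (Fin 1) (Fin 1) K :=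
  fun _ _ => M v p a a

/-- dimension count for a linear map -/
private theorem Sub_rank {M M' : Type} [AddCommGroup M] [Module K M] [FiniteDimensional K M]
    [AddCommGroup M'] [Module K M'] [FiniteDimensional K M'] (f : M →ₗ[K] M') (S S' : Submodule K M)
    (T : Submodule K M') (h1 : ∀ z ∈ S, f z ∈ T) (h2 : ∀ z ∈ S, f z = 0 → z ∈ S') :
    Module.finrank K S ≤ Module.finrank K (LinearMap.range ((f.domRestrict S).codRestrict T
      fun z => h1 z.1 z.2)) + Module.finrank K S' := by
  let g : S →ₗ[K] T := (f.domRestrict S).codRestrict T fun z => h1 z.1 z.2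
  have e := LinearMap.finrank_range_add_finrank_ker g
  have hk : ∀ z : S, z ∈ LinearMap.ker g → z.1 ∈ S' := by
    intro z hz
    refine h2 z.1 z.2 ?_
    have h3 : g z = 0 := hz
    exact congrArg Subtype.val h3
  let j : LinearMap.ker g →ₗ[K] S' := ((Submodule.subtype S).comp
    (Submodule.subtype (LinearMap.ker g))).codRestrict S' fun z => hk z.1 z.2
  have hj : Function.Injective j := by
    intro a b hab
    apply Subtype.ext
    apply Subtype.ext
    have h5 : ((j a : S') : M) = ((j b : S') : M) := by rw [hab]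
    exact h5
  have h4 := LinearMap.finrank_le_finrank_of_injective hj
  have h6 : Module.finrank K (LinearMap.range ((f.domRestrict S).codRestrict T
      fun z => h1 z.1 z.2)) = Module.finrank K (LinearMap.range g) := rfl
  omega

/-- the cycles whose coordinates from `k` on vanish -/
private def Sub_F {G : SimpleGraph V} (D : PG G P) (M : V → P → Matrix (Fin n) (Fin n) K) (d k : ℕ) :
    Submodule K (Finset V → P → Fin n → K) where
  carrier := {z | z ∈ Zs K G d (rM D M) ∧ ∀ σ p (b : Fin n), k ≤ b.val → z σ p b = 0}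
  zero_mem' := ⟨Submodule.zero_mem _, fun _ _ _ _ => rfl⟩
  add_mem' := by
    rintro z w ⟨h1, h2⟩ ⟨h3, h4⟩
    refine ⟨Submodule.add_mem _ h1 h3, fun σ p b hb => ?_⟩
    show z σ p b + w σ p b = 0
    rw [h2 σ p b hb, h4 σ p b hb, add_zero]
  smul_mem' := by
    rintro c z ⟨h1, h2⟩
    refine ⟨Submodule.smul_mem _ c h1, fun σ p b hb => ?_⟩
    show c * z σ p b = 0
    rw [h2 σ p b hb, mul_zero]

/-- the coordinate `a` -/
private def Sub_co (K : Type) [Field K] (V P : Type) {n : ℕ} (a : Fin n) :
    (Finset V → P → Fin n → K) →ₗ[K] (Finset V → P → Fin 1 → K) where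
  toFun z := fun σ p _ => z σ p a
  map_add' _ _ := rfl
  map_smul' _ _ := rfl

private theorem Sub_co_mem {G : SimpleGraph V} (D : PG G P) (M : V → P → Matrix (Fin n) (Fin n) K)
    (htri : ∀ v p a b, b < a → M v p a b = 0) (d : ℕ) (a : Fin n)
    {z : Finset V → P → Fin n → K} (hz : z ∈ Sub_F D M d (a.val + 1)) :
    Sub_co K V P a z ∈ Zs K G d (rM D (dM M a)) := by
  obtain ⟨hz, h0⟩ := hz
  obtain ⟨h1, h2, h3⟩ := mem_Zs.1 hz
  rw [mem_Zs]
  refine ⟨fun σ hσ => h1 σ fun h => hσ ?_, fun σ v hv => ?_, fun κ => ?_⟩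
  · funext p i
    exact congrFun (congrFun h p) a
  · funext p i
    have h4 : ∑ b, M v p a b * z σ (p * D.g v) b = z σ p a := congrFun (congrFun (h2 σ v hv) p) a
    have h5 : ∑ b, M v p a b * z σ (p * D.g v) b = M v p a a * z σ (p * D.g v) a := by
      refine Finset.sum_eq_single a (fun b _ hb => ?_) fun h => absurd (mem_univ a) h
      rcases lt_or_gt_of_ne hb with h | h
      · rw [htri v p a b h, zero_mul]
      · rw [h0 σ (p * D.g v) b (Nat.succ_le_of_lt h), mul_zero]
    show ∑ j : Fin 1, dM M a v p i j * z σ (p * D.g v) a = z σ p a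
    rw [Fin.sum_univ_one]
    exact h5.symm.trans h4
  · funext p i
    have h4 := congrFun (congrFun (h3 κ) p) a
    rw [Finset.sum_apply, Finset.sum_apply] at h4 ⊢
    exact h4

private theorem Sub_co_zero {G : SimpleGraph V} (D : PG G P) (M : V → P → Matrix (Fin n) (Fin n) K)
    (d : ℕ) (a : Fin n) {z : Finset V → P → Fin n → K} (hz : z ∈ Sub_F D M d (a.val + 1))
    (h : Sub_co K V P a z = 0) : z ∈ Sub_F D M d a.val := by
  refine ⟨hz.1, fun σ p b hb => ?_⟩
  rcases Nat.eq_or_lt_of_le hb with h1 | h1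
  · have h2 : a = b := Fin.ext h1
    rw [← h2]
    exact congrFun (congrFun (congrFun h σ) p) 0
  · exact hz.2 σ p b h1

private theorem Sub_F_top {G : SimpleGraph V} (D : PG G P) (M : V → P → Matrix (Fin n) (Fin n) K)
    (d : ℕ) : Sub_F D M d n = Zs K G d (rM D M) := by
  ext z
  refine ⟨fun h => h.1, fun h => ⟨h, fun σ p b hb => ?_⟩⟩
  have := b.isLt
  omega

private theorem Sub_F_le {G : SimpleGraph V} (D : PG G P) (M : V → P → Matrix (Fin n) (Fin n) K)
    (htri : ∀ v p a b, b < a → M v p a b = 0) (d : ℕ) : ∀ m, m ≤ n →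
    Module.finrank K (Sub_F D M d m) ≤
      ∑ a ∈ univ.filter (fun a : Fin n => a.val < m), zM K D (dM M a) d
  | 0, _ => by
    have h1 : Sub_F D M d 0 = ⊥ := (Submodule.eq_bot_iff _).2 fun z hz => by
      funext σ p b
      exact hz.2 σ p b (Nat.zero_le _)
    rw [h1, finrank_bot]
    exact Nat.zero_le _
  | m + 1, hm => by
    have ih := Sub_F_le D M htri d m (by omega)
    let a : Fin n := ⟨m, by omega⟩
    have h1 := Sub_rank (Sub_co K V P a) (Sub_F D M d (m + 1)) (Sub_F D M d m)
      (Zs K G d (rM D (dM M a))) (fun z hz => Sub_co_mem D M htri d a hz)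
      (fun z hz h => Sub_co_zero D M d a hz h)
    have h2 : univ.filter (fun a : Fin n => a.val < m + 1) =
        insert a (univ.filter (fun a : Fin n => a.val < m)) := by
      ext b
      rw [mem_insert, mem_filter, mem_filter, Fin.ext_iff]
      simp only [mem_univ, true_and]
      show b.val < m + 1 ↔ b.val = m ∨ b.val < m
      omega
    have h3 : a ∉ univ.filter (fun a : Fin n => a.val < m) := by
      rw [mem_filter]
      rintro ⟨-, h⟩
      exact lt_irrefl _ h
    rw [h2, sum_insert h3]
    refine h1.trans (Nat.add_le_add ?_ ih)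
    exact Submodule.finrank_le _

/-- **Subadditivity.** The cycles `z` with `z σ p b = 0` for `b ≥ a` (`a = 0, ..., n`) form a filtration; the
coordinate `a` maps the cycles with `z σ p b = 0` for `b > a` to the cycles of `dM M a`, its kernel is the next term (as
in `Pool.Agent.H19.SR.Upp`). -/
theorem zM_le {G : SimpleGraph V} (D : PG G P) (M : V → P → Matrix (Fin n) (Fin n) K)
    (htri : ∀ v p a b, b < a → M v p a b = 0) (d : ℕ) :
    zM K D M d ≤ ∑ a : Fin n, zM K D (dM M a) d := by
  have h1 := Sub_F_le D M htri d n le_rfl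
  rw [Sub_F_top] at h1
  refine h1.trans (Finset.sum_le_sum_of_subset (filter_subset _ _))

/-- **Equality implies that the last coordinate is surjective.** -/
theorem lift_of_eq {G : SimpleGraph V} (D : PG G P) (M : V → P → Matrix (Fin (n + 1)) (Fin (n + 1)) K)
    (htri : ∀ v p a b, b < a → M v p a b = 0) (d : ℕ)
    (heq : zM K D M d = ∑ a : Fin (n + 1), zM K D (dM M a) d)
    (z₀ : Finset V → P → Fin 1 → K) (hz₀ : z₀ ∈ Zs K G d (rM D (dM M (Fin.last n)))) :
    ∃ z ∈ Zs K G d (rM D M), ∀ σ p, z σ p (Fin.last n) = z₀ σ p 0 := by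
  have h0 : Sub_F D M d (n + 1) = Zs K G d (rM D M) := Sub_F_top D M d
  have h1 := Sub_rank (Sub_co K V P (Fin.last n)) (Sub_F D M d (n + 1)) (Sub_F D M d n)
    (Zs K G d (rM D (dM M (Fin.last n)))) (fun z hz => Sub_co_mem D M htri d (Fin.last n) hz)
    (fun z hz h => Sub_co_zero D M d (Fin.last n) hz h)
  have h2 := Sub_F_le D M htri d n (Nat.le_succ n)
  have h3 : univ = insert (Fin.last n) (univ.filter (fun a : Fin (n + 1) => a.val < n)) := by
    ext b
    rw [mem_insert, mem_filter, Fin.ext_iff]
    simp only [mem_univ, true_and, true_iff]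
    have := b.isLt
    show b.val = n ∨ b.val < n
    omega
  have h4 : Fin.last n ∉ univ.filter (fun a : Fin (n + 1) => a.val < n) := by
    rw [mem_filter]
    rintro ⟨-, h⟩
    exact lt_irrefl _ h
  rw [h3, sum_insert h4] at heq
  have h5 : Module.finrank K (Sub_F D M d (n + 1)) = zM K D M d := by
    rw [h0]
    rfl
  have h6 : zM K D (dM M (Fin.last n)) d =
    Module.finrank K (Zs K G d (rM D (dM M (Fin.last n)))) := rfl
  have h7 : LinearMap.range (((Sub_co K V P (Fin.last n)).domRestrict
      (Sub_F D M d (n + 1))).codRestrict (Zs K G d (rM D (dM M (Fin.last n))))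
      fun z => Sub_co_mem D M htri d (Fin.last n) z.2) = ⊤ := by
    apply Submodule.eq_top_of_finrank_eq
    refine le_antisymm (Submodule.finrank_le _) ?_
    omega
  obtain ⟨z, hz⟩ := LinearMap.range_eq_top.1 h7 ⟨z₀, hz₀⟩
  refine ⟨z.1, z.2.1, fun σ p => ?_⟩
  have h8 := congrArg Subtype.val hz
  exact congrFun (congrFun (congrFun h8 σ) p) 0

private theorem Sub_conj {G : SimpleGraph V} (D : PG G P) (M M' : V → P → Matrix (Fin n) (Fin n) K)
    (u : Fin n → K) (hu : ∀ a, u a ≠ 0)
    (h : ∀ v p a b, M' v p a b * u a = M v p a b * u b) (d : ℕ) : zM K D M' d ≤ zM K D M d := by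
  let f : (Finset V → P → Fin n → K) →ₗ[K] (Finset V → P → Fin n → K) :=
    { toFun := fun z σ p a => u a * z σ p a
      map_add' := fun z w => by
        funext σ p a
        show u a * (z σ p a + w σ p a) = u a * z σ p a + u a * w σ p a
        ring
      map_smul' := fun c z => by
        funext σ p a
        show u a * (c * z σ p a) = c * (u a * z σ p a)
        ring }
  have hf : ∀ z ∈ Zs K G d (rM D M'), f z ∈ Zs K G d (rM D M) := by
    intro z hz
    obtain ⟨h1, h2, h3⟩ := mem_Zs.1 hz
    rw [mem_Zs]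
    refine ⟨fun σ hσ => h1 σ fun h => hσ ?_, fun σ v hv => ?_, fun κ => ?_⟩
    · funext p a
      show u a * z σ p a = 0
      rw [h]
      exact mul_zero _
    · funext p a
      have h4 : ∑ b, M' v p a b * z σ (p * D.g v) b = z σ p a :=
        congrFun (congrFun (h2 σ v hv) p) a
      show ∑ b, M v p a b * (u b * z σ (p * D.g v) b) = u a * z σ p a
      rw [← h4, Finset.mul_sum]
      refine Finset.sum_congr rfl fun b _ => ?_
      rw [← mul_assoc, ← h v p a b]
      ring
    · have h5 : ∑ v ∈ κᶜ, f z (insert v κ) = fun p a => u a * (∑ v ∈ κᶜ, z (insert v κ)) p a := by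
        funext p a
        rw [Finset.sum_apply, Finset.sum_apply, Finset.sum_apply, Finset.sum_apply, Finset.mul_sum]
        rfl
      rw [h5, h3 κ]
      funext p a
      exact mul_zero _
  let j : Zs K G d (rM D M') →ₗ[K] Zs K G d (rM D M) := (f.domRestrict _).codRestrict _
    fun z => hf z.1 z.2
  have hj : Function.Injective j := by
    intro a b hab
    apply Subtype.ext
    have h5 : f a.1 = f b.1 := congrArg Subtype.val hab
    funext σ p i
    have h6 : u i * a.1 σ p i = u i * b.1 σ p i := congrFun (congrFun (congrFun h5 σ) p) i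
    exact mul_left_cancel₀ (hu i) h6
  exact LinearMap.finrank_le_finrank_of_injective hj

/-- conjugation by a diagonal matrix does not change the dimension -/
theorem zM_conj {G : SimpleGraph V} (D : PG G P) (M M' : V → P → Matrix (Fin n) (Fin n) K)
    (u : Fin n → K) (hu : ∀ a, u a ≠ 0)
    (h : ∀ v p a b, M' v p a b * u a = M v p a b * u b) (d : ℕ) : zM K D M' d = zM K D M d := by
  refine le_antisymm (Sub_conj D M M' u hu h d) (Sub_conj D M' M (fun a => (u a)⁻¹)
    (fun a => inv_ne_zero (hu a)) (fun v p a b => ?_) d)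
  have h1 := h v p a b
  have h2 := hu a
  have h3 := hu b
  field_simp
  linear_combination -h1

end Pool.Agent.S9
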