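import Pool.Agent.S9.E.Gz
import Pool.Agent.S9.E.Sub
import Pool.Agent.S9.E.Den
import Pool.Agent.S9.E.BaseA
import Pool.Agent.H19.SR.RetG

/-!
# S9, block E: the lower bound
-/

set_option autoImplicit false
set_option linter.unusedSectionVars false

open Finset

namespace Pool.Agent.S9

open Pool.Agent.H77.SW Pool.Agent.H19.SR Pool.Agent.H73.GC

variable {V : Type} [DecidableEq V] [Fintype V] {P : Type} [Group P] [Fintype P]
  {I : Type} [Fintype I] {n : ℕ}

/-- **The lower bound** for coefficients over the ring -/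
theorem lower_ring {G : SimpleGraph V} {D : PG G P} {e : V → P → I → ℤ} {i : ℕ}
    (hmin : MinAt D e i) (M : V → P → Matrix (Fin n) (Fin n) (RI I)) (hM : IsEdg D M)
    (htri : ∀ v p a b, b < a → M v p a b = 0)
    (w : V → P → Fin n → I → ℤ) (hw : ∀ v p a, M v p a a = ttR (w v p a)) :
    n * (zM (KI I) D (chiK e) i + zM (KI I) D (chiK e) (i + 1)) ≤
      zM (KI I) D (fun v p => (M v p).map (algebraMap (RI I) (KI I))) i +
        zM (KI I) D (fun v p => (M v p).map (algebraMap (RI I) (KI I))) (i + 1) := by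
  set A := zM (KI I) D (fun v p => (M v p).map (algebraMap (RI I) (KI I))) i with hA
  set B := zM (KI I) D (fun v p => (M v p).map (algebraMap (RI I) (KI I))) (i + 1) with hB
  have key : (n : ℝ) * (hchi D e i : ℝ) ≤ (A : ℝ) + B - n * cP D (i + 1) := by
    refine le_of_forall_pos_le_add fun ε hε => ?_
    obtain ⟨k, hk⟩ := hX_rk_le D M hM htri w hw i ε hε
    have h1 := hk k le_rfl
    rw [← hA, ← hB] at h1
    have hfin : Finite (RK I k) := finite_RK k
    have hN := isN_rk D M hM htri w hw k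
    obtain ⟨P', _, _, D', -, h2⟩ := to_group hN (isBit_rk D M k)
    have h3 := h2 univ i
    have h4 := hmin P' D'
    rw [finrank_Yrk] at h3
    have hP' : (0 : ℝ) < Fintype.card P' := by exact_mod_cast Fintype.card_pos
    have h5 : ((Fintype.card P * n * 2 ^ (k * Fintype.card I) : ℕ) : ℝ) * (hX (Cq G univ) (regP D'.g) i : ℝ) ≤
        Fintype.card P' * (hX (Cq G univ) (rk D M k) i : ℝ) := by exact_mod_cast h3
    have h6 : (Fintype.card P' : ℝ) * (hchi D e i : ℝ) ≤ Fintype.card P * (hX (Cq G univ) (regP D'.g) i : ℝ) := by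
      exact_mod_cast h4
    push_cast at h5
    have h7 : (0 : ℝ) < 2 ^ (k * Fintype.card I) := by positivity
    have h8 : (Fintype.card P' : ℝ) * ((n : ℝ) * (hchi D e i : ℝ) * 2 ^ (k * Fintype.card I)) ≤
        Fintype.card P' * (((A : ℝ) + B - n * cP D (i + 1) + ε) * 2 ^ (k * Fintype.card I)) := by
      calc (Fintype.card P' : ℝ) * ((n : ℝ) * (hchi D e i : ℝ) * 2 ^ (k * Fintype.card I))
          = ((Fintype.card P' : ℝ) * (hchi D e i : ℝ)) * (n * 2 ^ (k * Fintype.card I)) := by ring
        _ ≤ (Fintype.card P * (hX (Cq G univ) (regP D'.g) i : ℝ)) * (n * 2 ^ (k * Fintype.card I)) :=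
          mul_le_mul_of_nonneg_right h6 (by positivity)
        _ = (Fintype.card P : ℝ) * n * 2 ^ (k * Fintype.card I) * (hX (Cq G univ) (regP D'.g) i : ℝ) := by ring
        _ ≤ Fintype.card P' * (hX (Cq G univ) (rk D M k) i : ℝ) := h5
        _ ≤ _ := mul_le_mul_of_nonneg_left h1 hP'.le
    have h9 := le_of_mul_le_mul_left h8 hP'
    exact le_of_mul_le_mul_right h9 h7
  have h10 : (n : ℝ) * ((zM (KI I) D (chiK e) i : ℝ) + zM (KI I) D (chiK e) (i + 1)) ≤ (A : ℝ) + B := by
    unfold hchi at key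
    push_cast at key
    linarith
  exact_mod_cast h10

/-- **The lower bound** over the field -/
theorem lower_field {G : SimpleGraph V} {D : PG G P} {e : V → P → I → ℤ} {i : ℕ}
    (hmin : MinAt D e i) (M : V → P → Matrix (Fin n) (Fin n) (KI I)) (hM : IsEdg D M)
    (htri : ∀ v p a b, b < a → M v p a b = 0)
    (w : V → P → Fin n → I → ℤ) (hw : ∀ v p a, M v p a a = tt (w v p a)) :
    n * (zM (KI I) D (chiK e) i + zM (KI I) D (chiK e) (i + 1)) ≤
      zM (KI I) D M i + zM (KI I) D M (i + 1) := by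
  obtain ⟨d, hd0, c', h1, h2, h3⟩ := exists_den (R := RI I) (K := KI I) (fun x : V × P => M x.1 x.2)
    (fun x a b hab => htri x.1 x.2 a b hab) (fun x a => ttR (w x.1 x.2 a)) (fun x a => hw x.1 x.2 a)
  have hdK : algebraMap (RI I) (KI I) d ≠ 0 := by
    intro h0
    exact hd0 ((IsFractionRing.injective (RI I) (KI I)) (h0.trans (map_zero _).symm))
  have hM' : IsEdg D fun v p => c' (v, p) := by
    refine ⟨fun v p => ?_, fun u v huv p => ?_⟩
    · refine den_inj hdK (den_mul (h3 (v, p)) (h3 (v, p * D.g v))) ?_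
      have h4 : M v p * M v (p * D.g v) = 1 := hM.inv v p
      change _ = M v p * M v (p * D.g v) * _
      rw [h4]
      exact den_one _
    · refine den_inj hdK (den_mul (h3 (u, p)) (h3 (v, p * D.g u))) ?_
      have h4 : M u p * M v (p * D.g u) = M v p * M u (p * D.g v) := hM.comm u v huv p
      change _ = M u p * M v (p * D.g u) * _
      rw [h4]
      exact den_mul (h3 (v, p)) (h3 (u, p * D.g v))
  have h5 := lower_ring hmin (fun v p => c' (v, p)) hM' (fun v p a b hab => h1 (v, p) a b hab) w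
    (fun v p a => h2 (v, p) a)
  have h6 : ∀ k, zM (KI I) D (fun v p => (c' (v, p)).map (algebraMap (RI I) (KI I))) k = zM (KI I) D M k := by
    intro k
    refine zM_conj D M _ (fun a => algebraMap (RI I) (KI I) d ^ (a : ℕ)) (fun a => pow_ne_zero _ hdK)
      (fun v p a b => ?_) k
    have h7 := congrFun (congrFun (h3 (v, p)) a) b
    unfold dg at h7
    rw [Matrix.diagonal_mul, Matrix.mul_diagonal] at h7
    rw [mul_comm]
    exact h7
  rw [h6, h6] at h5
  exact h5

/-- **Exactness**: the last coordinate of the cycles is surjective, in the degrees `i` and `i + 1`. The weights are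
`e` composed with injective endomorphisms. -/
theorem lift_last {G : SimpleGraph V} {D : PG G P} {e : V → P → I → ℤ} {i : ℕ}
    (hmin : MinAt D e i) (M : V → P → Matrix (Fin (n + 1)) (Fin (n + 1)) (KI I)) (hM : IsEdg D M)
    (htri : ∀ v p a b, b < a → M v p a b = 0)
    (Z : Fin (n + 1) → (I → ℤ) →+ (I → ℤ)) (hZ : ∀ a, Function.Injective (Z a))
    (hw : ∀ v p a, M v p a a = tt (Z a (e v p))) (d : ℕ) (hd : d = i ∨ d = i + 1)
    (z₀ : Finset V → P → Fin 1 → KI I)
    (hz₀ : z₀ ∈ Zs (KI I) G d (rM D (dM M (Fin.last n)))) :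
    ∃ z ∈ Zs (KI I) G d (rM D M), ∀ σ p, z σ p (Fin.last n) = z₀ σ p 0 := by
  have h1 := lower_field hmin M hM htri (fun v p a => Z a (e v p)) hw
  have h2 : ∀ k a, zM (KI I) D (dM M a) k = zM (KI I) D (chiK e) k := by
    intro k a
    rw [← zM_base D e (Z a) (hZ a) k]
    have h3 : dM M a = chiK fun v p => Z a (e v p) := by
      funext v p x y
      exact hw v p a
    rw [h3]
  have h4 : ∀ k, ∑ a : Fin (n + 1), zM (KI I) D (dM M a) k = (n + 1) * zM (KI I) D (chiK e) k := by
    intro k
    rw [sum_congr rfl fun a _ => h2 k a, sum_const, card_univ, Fintype.card_fin, smul_eq_mul]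
  have h5 : ∀ k, zM (KI I) D M k ≤ (n + 1) * zM (KI I) D (chiK e) k := by
    intro k
    rw [← h4]
    exact zM_le D M htri k
  have h6 := h5 i
  have h7 := h5 (i + 1)
  rw [mul_add] at h1
  have h8 : zM (KI I) D M d = ∑ a : Fin (n + 1), zM (KI I) D (dM M a) d := by
    rw [h4]
    rcases hd with rfl | rfl
    · omega
    · omega
  exact lift_of_eq D M htri d h8 z₀ hz₀

end Pool.Agent.S9
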