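import Pool.Agent.S9.E.Defs
import Pool.Agent.H73.GC.LuckC

/-!
# Project S9, block E: dimensions of chains and homology for a module over the field with two elements
-/

set_option autoImplicit false
set_option linter.unusedSectionVars false

open Finset

namespace Pool.Agent.S9

open Pool.Agent.H77.SW Pool.Agent.H19.SR Pool.Agent.H73.GC

variable {V : Type} [DecidableEq V] [Fintype V] {Y : Type} [AddCommGroup Y] [Module F2 Y] [Finite Y]

private theorem count_zs {G : SimpleGraph V} (r : V → Module.End F2 Y) (n : ℕ) :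
    (Zs (ZMod 2) G n r : Submodule (ZMod 2) (Finset V → Y)) =
      Ch (Sy (Cq G univ) r) n ⊓ LinearMap.ker dd := by
  ext z
  rw [mem_Zs, Submodule.mem_inf, mem_Ch, LinearMap.mem_ker]
  constructor
  · rintro ⟨h1, h2, h3⟩
    refine ⟨fun s => ⟨⟨fun hn => ?_, fun v hv => h2 s v hv⟩, fun hn => ?_⟩, ?_⟩
    · by_contra h0
      exact hn ⟨(h1 s h0).1, subset_univ s⟩
    · by_contra h0
      exact hn (h1 s h0).2
    · funext s
      rw [dd_apply]
      exact h3 s
  · rintro ⟨h1, h3⟩
    refine ⟨fun s hs => ⟨?_, ?_⟩, fun s v hv => (h1 s).1.2 v hv, fun s => ?_⟩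
    · by_contra h0
      exact hs ((h1 s).1.1 fun h => h0 h.1)
    · by_contra h0
      exact hs ((h1 s).2 h0)
    · have h4 := congrFun h3 s
      rw [dd_apply] at h4
      exact h4

/-- as `Pool.Agent.H19.SR.hX_reg` for any module -/
theorem hX_gen {G : SimpleGraph V} (r : V → Module.End F2 Y) (i : ℕ) :
    hX (Cq G univ) r i = (Module.finrank F2 (Zs (ZMod 2) G i r) : ℤ) +
      Module.finrank F2 (Zs (ZMod 2) G (i + 1) r) -
      Module.finrank F2 (Ch (Sy (Cq G univ) r) (i + 1)) := by
  have hz : ∀ n, Module.finrank F2 (Zs (ZMod 2) G n r) = Module.finrank F2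
      (Ch (Sy (Cq G univ) r) n ⊓ LinearMap.ker dd : Submodule F2 (Finset V → Y)) := by
    intro n
    rw [count_zs]
  have hfin : Finite (Finset V → Y) := inferInstance
  have h := hx_eq (E := Finset V → Y) dd (Ch (Sy (Cq G univ) r)) i
  have h1 := hz i
  have h2 := hz (i + 1)
  unfold hX hd
  rw [h, h1, h2]

/-- as `Pool.Agent.H19.SR.finrank_ch` for any module with bits -/
theorem finrank_gen {G : SimpleGraph V} {r E : V → Module.End F2 Y} (hN : IsN G univ r)
    (hB : IsBit G univ r E) (d : ℕ) :
    Module.finrank F2 (Ch (Sy (Cq G univ) r) d) * 2 ^ d = ncl G d * Module.finrank F2 Y := by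
  classical
  have h1 : ∀ s : Finset V, s.card = d → G.IsClique (s : Set V) →
      Module.finrank F2 (Sy (Cq G univ) r s) * 2 ^ d = Module.finrank F2 Y := by
    intro s hs hc
    have hq : Cq G univ s := ⟨hc, subset_univ s⟩
    have h2 : Sy (Cq G univ) r s = Inv r s := by
      ext y
      rw [mem_Sy, mem_Inv]
      exact ⟨fun h => h.2, fun h => ⟨fun hn => absurd hq hn, h⟩⟩
    rw [h2, ← hs, finrank_Inv (IsBit.bitOn hN hB hq)]
  have h0 : ∀ s : Finset V, ¬ G.IsClique (s : Set V) →
      Module.finrank F2 (Sy (Cq G univ) r s) = 0 := by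
    intro s hc
    have h2 : Sy (Cq G univ) r s = ⊥ := by
      rw [eq_bot_iff]
      intro y hy
      exact (Submodule.mem_bot _).2 (hy.1 fun h => hc h.1)
    rw [h2, finrank_bot]
  rw [finrank_Ch, sum_mul]
  have h3 : ∀ s ∈ (univ : Finset (Finset V)).filter (fun s => s.card = d),
      Module.finrank F2 (Sy (Cq G univ) r s) * 2 ^ d =
        if G.IsClique (s : Set V) then Module.finrank F2 Y else 0 := by
    intro s hs
    split_ifs with hc
    · exact h1 s (mem_filter.1 hs).2 hc
    · rw [h0 s hc, zero_mul]
  rw [sum_congr rfl h3, ← sum_filter, sum_const, smul_eq_mul, filter_filter]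
  have h4 : ((univ : Finset (Finset V)).filter
      fun s : Finset V => s.card = d ∧ G.IsClique (s : Set V)).card = ncl G d := by
    unfold ncl
    congr 1
    ext s
    simp only [mem_filter, mem_univ, true_and, and_comm]
  rw [h4]

/-- the right regular representation -/
private def count_rho (P : Type) [Group P] : P →* Module.End F2 (P → F2) where
  toFun q :=
    { toFun := fun f p => f (p * q)
      map_add' := fun _ _ => rfl
      map_smul' := fun _ _ => rfl }
  map_one' := by
    ext1 f
    funext p
    show f (p * 1) = f p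
    rw [mul_one]
  map_mul' a b := by
    ext1 f
    funext p
    show f (p * (a * b)) = f (p * a * b)
    rw [mul_assoc]

/-- the homology of a covering: `reg_le` for the regular representation of `P` as a module over `Q` -/
theorem mono_reg {G : SimpleGraph V} {P Q : Type} [Group P] [Fintype P] [Group Q] [Fintype Q]
    (D : PG G P) (D' : PG G Q) (π : Q →* P) (h : ∀ v, π (D'.g v) = D.g v) (i : ℕ) :
    (Fintype.card P : ℤ) * hX (Cq G univ) (regP D'.g) i ≤
      Fintype.card Q * hX (Cq G univ) (regP D.g) i := by
  have h1 := reg_le (isN_reg D) (isBit_reg D) D'.two ((count_rho P).comp π) D'.g D'.sq D'.comm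
    (fun v _ => by
      show count_rho P (π (D'.g v)) = regP D.g v
      rw [h v]
      rfl) i
  rw [Module.finrank_fintype_fun_eq_card] at h1
  exact h1

end Pool.Agent.S9
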