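import Pool.Agent.S9.E.Base
import Pool.Agent.S9.E.Count

/-!
# S9, block E: vanishing growth from the vanishing of the homology with generic coefficients
-/

set_option autoImplicit false
set_option linter.unusedSectionVars false

open Finset

namespace Pool.Agent.S9

open Pool.Agent.H77.SW Pool.Agent.H19.SR Pool.Agent.H73.GC

variable {V : Type} [DecidableEq V] [Fintype V] {P : Type} [Group P] [Fintype P]
  {I : Type} [Fintype I] {n : ℕ}

/-- the dimension of the coefficients -/
theorem finrank_Yrk (k : ℕ) : Module.finrank F2 (P → Fin n → RK I k) =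
    Fintype.card P * n * 2 ^ (k * Fintype.card I) := by
  have : Finite (RK I k) := finite_RK k
  have h1 : Module.finrank F2 (P → Fin n → RK I k) = Fintype.card P * Module.finrank F2 (Fin n → RK I k) := by
    rw [Module.finrank_pi_fintype, sum_const, card_univ, smul_eq_mul]
  have h2 : Module.finrank F2 (Fin n → RK I k) = n * Module.finrank F2 (RK I k) := by
    rw [Module.finrank_pi_fintype, sum_const, card_univ, smul_eq_mul, Fintype.card_fin]
  rw [h1, h2, finrank_RK, mul_assoc]

/-- the dimension of the chains -/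
theorem finrank_Ch_rk {G : SimpleGraph V} (D : PG G P) (M : V → P → Matrix (Fin n) (Fin n) (RI I)) {k : ℕ}
    (hN : IsN G univ (rk D M k)) (d : ℕ) :
    Module.finrank F2 (Ch (Sy (Cq G univ) (rk D M k)) d) = n * cP D d * 2 ^ (k * Fintype.card I) := by
  have : Finite (RK I k) := finite_RK k
  have h1 := finrank_gen hN (isBit_rk D M k) d
  have h2 := finrank_ch D d
  rw [finrank_Yrk] at h1
  have h3 : Module.finrank F2 (Ch (Sy (Cq G univ) (rk D M k)) d) * 2 ^ d =
      n * cP D d * 2 ^ (k * Fintype.card I) * 2 ^ d := by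
    have h4 : n * cP D d * 2 ^ (k * Fintype.card I) * 2 ^ d = (cP D d * 2 ^ d) * (n * 2 ^ (k * Fintype.card I)) := by ring
    rw [h1, h4]
    unfold cP
    rw [h2]
    ring
  exact Nat.eq_of_mul_eq_mul_right (by positivity) h3

/-- the homology of the reduction is at most the generic dimension, up to `ε` -/
theorem hX_rk_le {G : SimpleGraph V} (D : PG G P) (M : V → P → Matrix (Fin n) (Fin n) (RI I)) (hM : IsEdg D M)
    (htri : ∀ v p a b, b < a → M v p a b = 0)
    (w : V → P → Fin n → I → ℤ) (hw : ∀ v p a, M v p a a = ttR (w v p a)) (i : ℕ) (ε : ℝ) (hε : 0 < ε) :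
    ∃ k₀ : ℕ, ∀ k ≥ k₀, (hX (Cq G univ) (rk D M k) i : ℝ) ≤
      ((zM (KI I) D (fun v p => (M v p).map (algebraMap (RI I) (KI I))) i : ℝ) +
        zM (KI I) D (fun v p => (M v p).map (algebraMap (RI I) (KI I))) (i + 1) - n * cP D (i + 1) + ε) *
        2 ^ (k * Fintype.card I) := by
  obtain ⟨k₁, h₁⟩ := box D M i (ε / 2) (half_pos hε)
  obtain ⟨k₂, h₂⟩ := box D M (i + 1) (ε / 2) (half_pos hε)
  refine ⟨max k₁ k₂, fun k hk => ?_⟩
  have : Finite (RK I k) := finite_RK k
  have e1 := h₁ k (le_trans (le_max_left _ _) hk)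
  have e2 := h₂ k (le_trans (le_max_right _ _) hk)
  have e3 := finrank_Ch_rk D M (isN_rk D M hM htri w hw k) (i + 1)
  rw [hX_gen, e3]
  push_cast
  have e4 : ((zM (KI I) D (fun v p => (M v p).map (algebraMap (RI I) (KI I))) i : ℝ) +
        zM (KI I) D (fun v p => (M v p).map (algebraMap (RI I) (KI I))) (i + 1) - n * cP D (i + 1) + ε) *
        2 ^ (k * Fintype.card I) =
      ((zM (KI I) D (fun v p => (M v p).map (algebraMap (RI I) (KI I))) i : ℝ) + ε / 2) * 2 ^ (k * Fintype.card I) +
      ((zM (KI I) D (fun v p => (M v p).map (algebraMap (RI I) (KI I))) (i + 1) : ℝ) + ε / 2) * 2 ^ (k * Fintype.card I) -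
      n * cP D (i + 1) * 2 ^ (k * Fintype.card I) := by ring
  rw [e4]
  have e5 := add_le_add e1 e2
  linarith

theorem isEdg_chiR {G : SimpleGraph V} {D : PG G P} {e : V → P → I → ℤ} (he : IsEv D e) : IsEdg D (chiR e) := by
  have hadd : ∀ a b : I → ℤ, ttR a * ttR b = ttR (a + b) := by
    intro a b
    unfold ttR
    rw [AddMonoidAlgebra.single_mul_single, mul_one]
  refine ⟨fun v p => ?_, fun u v h p => ?_⟩
  · funext a c
    rw [Matrix.mul_apply, Fin.sum_univ_one]
    change ttR (e v p) * ttR (e v (p * D.g v)) = _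
    rw [hadd, he.inv, Subsingleton.elim a c, Matrix.one_apply_eq]
    rfl
  · funext a c
    rw [Matrix.mul_apply, Fin.sum_univ_one, Matrix.mul_apply, Fin.sum_univ_one]
    change ttR (e u p) * ttR (e v (p * D.g u)) = ttR (e v p) * ttR (e u (p * D.g v))
    rw [hadd, hadd, he.comm u v h]

/-- **The growth vanishes if the homology with coefficients in the character does.** -/
theorem gz_of_zero {G : SimpleGraph V} (D : PG G P) (e : V → P → I → ℤ) (he : IsEv D e) (i : ℕ)
    (h : hchi D e i ≤ 0) : GZ G univ i := by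
  intro ε hε
  have hM := isEdg_chiR he
  have htri : ∀ v p (a b : Fin 1), b < a → chiR e v p a b = 0 := by
    intro v p a b hab
    exact absurd hab (by rw [Subsingleton.elim a b]; exact lt_irrefl _)
  have hw : ∀ v p (a : Fin 1), chiR e v p a a = ttR (e v p) := fun v p a => rfl
  obtain ⟨k, hk⟩ := hX_rk_le D (chiR e) hM htri (fun v p _ => e v p) hw i ε hε
  have hfin : Finite (RK I k) := finite_RK k
  have hN := isN_rk D (chiR e) hM htri (fun v p _ => e v p) hw k
  refine ⟨P → Fin 1 → RK I k, inferInstance, inferInstance, inferInstance, rk D (chiR e) k, bk D I 1 k, hN,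
    isBit_rk D (chiR e) k, ?_, ?_⟩
  · rw [finrank_Yrk]
    have := Fintype.card_pos (α := P)
    positivity
  · have h1 := hk k le_rfl
    rw [finrank_Yrk]
    have h2 : ((zM (KI I) D (fun v p => (chiR e v p).map (algebraMap (RI I) (KI I))) i : ℝ) +
        zM (KI I) D (fun v p => (chiR e v p).map (algebraMap (RI I) (KI I))) (i + 1) -
        ((1 : ℕ) : ℝ) * cP D (i + 1)) ≤ 0 := by
      have h3 : ((hchi D e i : ℤ) : ℝ) ≤ 0 := by exact_mod_cast h
      unfold hchi at h3
      push_cast at h3
      rw [Nat.cast_one, one_mul]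
      exact h3
    have h4 : (1 : ℝ) ≤ Fintype.card P := by exact_mod_cast Fintype.card_pos
    have h5 : (0 : ℝ) < 2 ^ (k * Fintype.card I) := by positivity
    push_cast
    calc (hX (Cq G univ) (rk D (chiR e) k) i : ℝ) ≤ _ := h1
      _ ≤ ε * 2 ^ (k * Fintype.card I) := mul_le_mul_of_nonneg_right (by linarith) h5.le
      _ ≤ ε * (Fintype.card P * ((1 : ℕ) : ℝ) * 2 ^ (k * Fintype.card I)) := by
        rw [Nat.cast_one, mul_one]
        refine mul_le_mul_of_nonneg_left ?_ hε.le
        nlinarith
      _ = _ := by norm_num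

end Pool.Agent.S9
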