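import Pool.Agent.S9.E.Defs

/-!
# S9, block E: ranks in the abelian tower (Hilbert–Kunz limit)

`RI I` is the group algebra over `ZMod 2` of the lattice `I → ℤ`, `RK I k` the one of `I → ZMod (2 ^ k)`.
`rank_lim`: for a matrix `M` over `RI I` the rank of the reduction over `RK I k`, as a matrix over `ZMod 2`, is
at least `(rank M - ε) * 2 ^ (k * |I|)` for large `k`.
-/

set_option autoImplicit false

open Finset

namespace Pool.Agent.S9.HK

instance RI_isDomain (I : Type) : IsDomain (RI I) := by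
  have : NoZeroDivisors (RI I) := inferInstance
  exact NoZeroDivisors.to_isDomain _

section Box

variable {I : Type}

/-- the box with the corner `a` and the side `n` -/
private def Box (a : I → ℤ) (n : ℕ) : Set (I → ℤ) := {u | ∀ i, a i ≤ u i ∧ u i < a i + n}

private theorem redZ_injOn (a : I → ℤ) (k : ℕ) : Set.InjOn (redZ I k) (Box a (2 ^ k)) := by
  intro u hu v hv h
  funext i
  have h1 : ((u i : ℤ) : ZMod (2 ^ k)) = ((v i : ℤ) : ZMod (2 ^ k)) := congrFun h i
  rw [ZMod.intCast_eq_intCast_iff] at h1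
  have h2 := (Int.modEq_iff_dvd.1 h1)
  obtain ⟨h3, h4⟩ := hu i
  obtain ⟨h5, h6⟩ := hv i
  have h7 : v i - u i = 0 := by
    refine Int.eq_zero_of_abs_lt_dvd h2 ?_
    rw [abs_lt]
    constructor <;> linarith
  linarith

private theorem red_injOn (a : I → ℤ) (k : ℕ) {x : RI I} (hx : (x.coeff.support : Set (I → ℤ)) ⊆ Box a (2 ^ k))
    (h : redR I k x = 0) : x = 0 := by
  have h1 : Finsupp.mapDomain (redZ I k) x.coeff = Finsupp.mapDomain (redZ I k) (0 : (I → ℤ) →₀ ZMod 2) := by
    rw [Finsupp.mapDomain_zero]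
    exact congrArg AddMonoidAlgebra.coeff h
  have h2 := Finsupp.mapDomain_injOn (M := ZMod 2) (Box a (2 ^ k)) (redZ_injOn a k) hx (by simp) h1
  exact AddMonoidAlgebra.coeff_eq_zero.1 h2

private theorem exists_box [Finite I] (f : RI I) : ∃ (a : I → ℤ) (c : ℕ),
    (f.coeff.support : Set (I → ℤ)) ⊆ Box a c := by
  classical
  have := Fintype.ofFinite I
  have h1 : ∃ b : ℕ, ∀ u ∈ f.coeff.support, ∀ i, |u i| ≤ b := by
    refine ⟨∑ u ∈ f.coeff.support, ∑ i, (u i).natAbs, fun u hu i => ?_⟩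
    have h2 : (u i).natAbs ≤ ∑ u ∈ f.coeff.support, ∑ i, (u i).natAbs :=
      (Finset.single_le_sum (f := fun i => (u i).natAbs) (fun _ _ => Nat.zero_le _) (mem_univ i)).trans
        (Finset.single_le_sum (f := fun u : I → ℤ => ∑ i, (u i).natAbs) (fun _ _ => Nat.zero_le _) hu)
    rw [Int.abs_eq_natAbs]
    exact_mod_cast h2
  obtain ⟨b, hb⟩ := h1
  refine ⟨fun _ => -b, 2 * b + 1, fun u hu i => ?_⟩
  have h2 := abs_le.1 (hb u hu i)
  constructor
  · exact h2.1
  · push_cast
    linarith [h2.2]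

/-- functions on the small box as elements of the group algebra -/
private noncomputable def emb (I : Type) [Finite I] (n : ℕ) : ((I → Fin n) → ZMod 2) →ₗ[ZMod 2] RI I :=
  (AddMonoidAlgebra.coeffLinearEquiv (ZMod 2)).symm.toLinearMap ∘ₗ
    Finsupp.lmapDomain (ZMod 2) (ZMod 2) (fun u : I → Fin n => fun i => ((u i : ℕ) : ℤ)) ∘ₗ
      (Finsupp.linearEquivFunOnFinite (ZMod 2) (ZMod 2) (I → Fin n)).symm.toLinearMap

private theorem emb_inj [Finite I] (n : ℕ) : Function.Injective (emb I n) := by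
  have h1 : Function.Injective (fun u : I → Fin n => fun i => ((u i : ℕ) : ℤ)) := by
    intro u v h
    funext i
    have h2 : ((u i : ℕ) : ℤ) = ((v i : ℕ) : ℤ) := congrFun h i
    exact Fin.ext (by exact_mod_cast h2)
  refine (AddMonoidAlgebra.coeffLinearEquiv (ZMod 2)).symm.injective.comp ?_
  exact (Finsupp.mapDomain_injective h1).comp
    (Finsupp.linearEquivFunOnFinite (ZMod 2) (ZMod 2) (I → Fin n)).symm.injective

private theorem emb_supp [Finite I] (n : ℕ) (g : (I → Fin n) → ZMod 2) :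
    ((emb I n g).coeff.support : Set (I → ℤ)) ⊆ Box 0 n := by
  classical
  intro u hu
  have h1 := Finsupp.mapDomain_support hu
  obtain ⟨v, -, rfl⟩ := Finset.mem_image.1 h1
  intro i
  refine ⟨?_, ?_⟩
  · change (0 : ℤ) ≤ ((v i : ℕ) : ℤ)
    exact_mod_cast Nat.zero_le _
  · rw [Pi.zero_apply, zero_add]
    change ((v i : ℕ) : ℤ) < n
    exact_mod_cast (v i).2

private theorem mul_supp (a : I → ℤ) {c n m : ℕ} (h : c + n ≤ m + 1) {f g : RI I}
    (hf : (f.coeff.support : Set (I → ℤ)) ⊆ Box a c) (hg : (g.coeff.support : Set (I → ℤ)) ⊆ Box 0 n) :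
    ((f * g).coeff.support : Set (I → ℤ)) ⊆ Box a m := by
  classical
  intro u hu
  have h1 := AddMonoidAlgebra.support_coeff_mul_subset f g hu
  obtain ⟨v, hv, w, hw, rfl⟩ := Finset.mem_add.1 h1
  intro i
  obtain ⟨h2, h3⟩ := hf hv i
  obtain ⟨h4, h5⟩ := hg hw i
  rw [Pi.zero_apply] at h4
  rw [Pi.zero_apply, zero_add] at h5
  rw [Pi.add_apply]
  have : (c : ℤ) + n ≤ m + 1 := by exact_mod_cast h
  constructor <;> linarith

/-- multiplication by a fixed element and the reduction are injective on the small box -/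
private theorem exists_inj [Finite I] {f : RI I} (hf : f ≠ 0) : ∃ c : ℕ, ∀ k n : ℕ, c + n ≤ 2 ^ k + 1 →
    ∀ g : (I → Fin n) → ZMod 2, redR I k (f * emb I n g) = 0 → g = 0 := by
  obtain ⟨a, c, hc⟩ := exists_box f
  refine ⟨c, fun k n h g hg => ?_⟩
  have h1 := red_injOn a k (x := f * emb I n g) (by
    have := mul_supp a (m := 2 ^ k) h hc (emb_supp n g)
    exact_mod_cast this) hg
  have h2 := (mul_eq_zero.1 h1).resolve_left hf
  exact emb_inj n (by rw [h2, map_zero])

end Box

section Minor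

/-- a nonzero minor -/
theorem exists_minor {F κ ι : Type} [Field F] [Fintype κ] [Fintype ι] (M : Matrix κ ι F) :
    ∃ (r : Fin M.rank → κ) (c : Fin M.rank → ι), (M.submatrix r c).det ≠ 0 := by
  classical
  have h1 : ∃ c : Fin M.rank → ι, LinearIndependent F (fun j => M.col (c j)) := by
    have h := Submodule.exists_fun_fin_finrank_span_eq F (Set.range M.col)
    rw [← Matrix.rank_eq_finrank_span_cols] at h
    obtain ⟨f, hf1, -, hf3⟩ := h
    choose c hc using hf1
    refine ⟨c, ?_⟩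
    have h2 : (fun j => M.col (c j)) = f := funext hc
    rw [h2]
    exact hf3
  obtain ⟨c, hc⟩ := h1
  have h2 : ((M.submatrix id c).transpose).rank = M.rank := by
    have h3 : LinearIndependent F ((M.submatrix id c).transpose).row := hc
    rw [h3.rank_matrix, Fintype.card_fin]
  have h4 : ∃ r : Fin M.rank → κ, LinearIndependent F (fun j => ((M.submatrix id c).transpose).col (r j)) := by
    have h := Submodule.exists_fun_fin_finrank_span_eq F (Set.range ((M.submatrix id c).transpose).col)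
    rw [← Matrix.rank_eq_finrank_span_cols, h2] at h
    obtain ⟨f, hf1, -, hf3⟩ := h
    choose r hr using hf1
    refine ⟨r, ?_⟩
    have h2 : (fun j => ((M.submatrix id c).transpose).col (r j)) = f := funext hr
    rw [h2]
    exact hf3
  obtain ⟨r, hr⟩ := h4
  refine ⟨r, c, ?_⟩
  have h5 : LinearIndependent F (M.submatrix r c).row := hr
  have h6 := Matrix.linearIndependent_rows_iff_isUnit.1 h5
  exact ((Matrix.isUnit_iff_isUnit_det _).1 h6).ne_zero

variable {R : Type} [CommRing R] {κ ι : Type} [Fintype κ] [Fintype ι]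

/-- the rank of a specialisation is at most the rank over the field of fractions -/
theorem rank_spec (K : Type) [Field K] [Algebra R K] [IsFractionRing R K] {F : Type} [Field F] (φ : R →+* F)
    (M : Matrix κ ι R) : (M.map φ).rank ≤ (M.map (algebraMap R K)).rank := by
  classical
  obtain ⟨r, c, h⟩ := exists_minor (M.map φ)
  have h1 : (M.submatrix r c).det ≠ 0 := by
    intro h0
    apply h
    rw [Matrix.submatrix_map, ← RingHom.mapMatrix_apply, ← RingHom.map_det, h0, map_zero]
  have h2 : ((M.map (algebraMap R K)).submatrix r c).det ≠ 0 := by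
    rw [Matrix.submatrix_map, ← RingHom.mapMatrix_apply, ← RingHom.map_det]
    intro h0
    exact h1 ((IsFractionRing.injective R K) (by rw [h0, map_zero]))
  have h3 := Matrix.rank_of_det_ne_zero h2
  rw [Fintype.card_fin] at h3
  rw [← h3]
  exact Matrix.rank_submatrix_le _ _ _

/-- injective specialisations do not change the rank -/
theorem rank_inj (K : Type) [Field K] [Algebra R K] [IsFractionRing R K] {F : Type} [Field F] {φ : R →+* F}
    (hφ : Function.Injective φ) (M : Matrix κ ι R) : (M.map φ).rank = (M.map (algebraMap R K)).rank := by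
  classical
  refine le_antisymm (rank_spec K φ M) ?_
  obtain ⟨r, c, h⟩ := exists_minor (M.map (algebraMap R K))
  have h1 : (M.submatrix r c).det ≠ 0 := by
    intro h0
    apply h
    rw [Matrix.submatrix_map, ← RingHom.mapMatrix_apply, ← RingHom.map_det, h0, map_zero]
  have h2 : ((M.map φ).submatrix r c).det ≠ 0 := by
    rw [Matrix.submatrix_map, ← RingHom.mapMatrix_apply, ← RingHom.map_det]
    intro h0
    exact h1 (hφ (by rw [h0, map_zero]))
  have h3 := Matrix.rank_of_det_ne_zero h2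
  rw [Fintype.card_fin] at h3
  rw [← h3]
  exact Matrix.rank_submatrix_le _ _ _

/-- a matrix of rank `ρ` over the field of fractions factors a nonzero multiple of the unit matrix of size `ρ` -/
theorem exists_factor [DecidableEq κ] [DecidableEq ι] (K : Type) [Field K] [Algebra R K] [IsFractionRing R K] (M : Matrix κ ι R) :
    ∃ (P : Matrix (Fin (M.map (algebraMap R K)).rank) κ R) (S : Matrix ι (Fin (M.map (algebraMap R K)).rank) R) (f : R),
      f ≠ 0 ∧ P * M * S = f • (1 : Matrix (Fin (M.map (algebraMap R K)).rank) (Fin (M.map (algebraMap R K)).rank) R) := by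
  classical
  obtain ⟨r, c, h⟩ := exists_minor (M.map (algebraMap R K))
  have h1 : (M.submatrix r c).det ≠ 0 := by
    intro h0
    apply h
    rw [Matrix.submatrix_map, ← RingHom.mapMatrix_apply, ← RingHom.map_det, h0, map_zero]
  refine ⟨(M.submatrix r c).adjugate * (1 : Matrix κ κ R).submatrix r id, (1 : Matrix ι ι R).submatrix id c,
    (M.submatrix r c).det, h1, ?_⟩
  rw [Matrix.mul_assoc, Matrix.mul_assoc]
  have h2 : (1 : Matrix κ κ R).submatrix r id * (M * (1 : Matrix ι ι R).submatrix id c) = M.submatrix r c := by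
    ext i j
    simp [Matrix.mul_apply, Matrix.one_apply]
  rw [h2, Matrix.adjugate_mul]

end Minor

section Rank

variable {I κ ι μ : Type} [Fintype I] [Fintype κ] [Fintype ι] [Fintype μ] [DecidableEq κ] [DecidableEq ι]
  [DecidableEq μ]

omit [Fintype I] in
theorem finite_RK [Finite I] (k : ℕ) : Finite (RK I k) := by
  have h1 : Finite ((I → ZMod (2 ^ k)) → ZMod 2) := inferInstance
  exact Finite.of_injective (fun x : RK I k => (x.coeff : (I → ZMod (2 ^ k)) → ZMod 2))
    fun x y h => AddMonoidAlgebra.coeff_injective (DFunLike.coe_injective h)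

/-- the linear map over `ZMod 2` of the reduction of a matrix -/
noncomputable def lk (k : ℕ) (M : Matrix κ ι (RI I)) : (ι → RK I k) →ₗ[ZMod 2] (κ → RK I k) :=
  (Matrix.mulVecLin (M.map (redR I k))).restrictScalars (ZMod 2)

omit [Fintype I] [Fintype κ] [DecidableEq κ] [DecidableEq ι] in
theorem lk_apply (k : ℕ) (M : Matrix κ ι (RI I)) (x : ι → RK I k) : lk k M x = (M.map (redR I k)).mulVec x := rfl

omit [Fintype I] [Fintype κ] [DecidableEq κ] [DecidableEq ι] [DecidableEq μ] in
theorem lk_mul (k : ℕ) (M : Matrix κ ι (RI I)) (N : Matrix ι μ (RI I)) : lk k (M * N) = lk k M ∘ₗ lk k N := by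
  refine LinearMap.ext fun x => ?_
  rw [LinearMap.comp_apply, lk_apply, lk_apply, lk_apply, Matrix.map_mul, Matrix.mulVec_mulVec]

theorem finrank_RK (k : ℕ) : Module.finrank (ZMod 2) (RK I k) = 2 ^ (k * Fintype.card I) := by
  classical
  have : Fintype (ZMod (2 ^ k)) := ZMod.fintype _
  rw [(AddMonoidAlgebra.coeffLinearEquiv (S := ZMod 2) (M := I → ZMod (2 ^ k)) (ZMod 2)).finrank_eq,
    Module.finrank_finsupp_self, Fintype.card_fun, ZMod.card, pow_mul]

/-- the rank of the reduction of a matrix over `ZMod 2` -/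
theorem le_rank (M : Matrix κ ι (RI I)) : ∃ c : ℕ, ∀ k n : ℕ, c + n ≤ 2 ^ k + 1 →
    (M.map (algebraMap (RI I) (KI I))).rank * n ^ Fintype.card I ≤
      Module.finrank (ZMod 2) (LinearMap.range (lk k M)) := by
  classical
  obtain ⟨P, S, f, hf, h⟩ := exists_factor (KI I) M
  obtain ⟨c, hc⟩ := exists_inj hf
  refine ⟨c, fun k n hn => ?_⟩
  have hfin : Finite (RK I k) := finite_RK k
  let ψ : ((I → Fin n) → ZMod 2) →+ RK I k :=
    (redR I k).toAddMonoidHom.comp ((AddMonoidHom.mulLeft f).comp (emb I n).toAddMonoidHom)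
  let Φ : (Fin (M.map (algebraMap (RI I) (KI I))).rank → (I → Fin n) → ZMod 2) →ₗ[ZMod 2]
      (Fin (M.map (algebraMap (RI I) (KI I))).rank → RK I k) :=
    LinearMap.pi fun j => (ψ.toZModLinearMap 2) ∘ₗ LinearMap.proj j
  have hΦ : ∀ g j, Φ g j = redR I k (f * emb I n (g j)) := fun _ _ => rfl
  have hinj : Function.Injective Φ := by
    rw [← LinearMap.ker_eq_bot, LinearMap.ker_eq_bot']
    intro g hg
    funext j
    refine hc k n hn (g j) ?_
    rw [← hΦ, hg, Pi.zero_apply]
  have hle : LinearMap.range Φ ≤ LinearMap.range (lk k (P * M * S)) := by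
    rintro _ ⟨g, rfl⟩
    refine ⟨fun j => redR I k (emb I n (g j)), ?_⟩
    funext j
    rw [h, lk_apply, hΦ, map_mul]
    rw [Matrix.mulVec, dotProduct, Finset.sum_eq_single j]
    · simp
    · intro i _ hij
      simp [Matrix.one_apply_ne (Ne.symm hij)]
    · intro h
      exact absurd (mem_univ j) h
  have h1 : Module.finrank (ZMod 2) (LinearMap.range Φ) =
      (M.map (algebraMap (RI I) (KI I))).rank * n ^ Fintype.card I := by
    rw [LinearMap.finrank_range_of_inj hinj, Module.finrank_pi_fintype]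
    simp
  have h2 : Module.finrank (ZMod 2) (LinearMap.range Φ) ≤
      Module.finrank (ZMod 2) (LinearMap.range (lk k (P * M * S))) := Submodule.finrank_mono hle
  have h3 : Module.finrank (ZMod 2) (LinearMap.range (lk k (P * M * S))) ≤
      Module.finrank (ZMod 2) (LinearMap.range (lk k M)) := by
    rw [lk_mul, lk_mul, LinearMap.range_comp]
    calc Module.finrank (ZMod 2) (((LinearMap.range (lk k S)).map (lk k P ∘ₗ lk k M)) : Submodule (ZMod 2) _)
        ≤ Module.finrank (ZMod 2) ((LinearMap.range (lk k M)).map (lk k P) : Submodule (ZMod 2) _) := by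
          refine Submodule.finrank_mono ?_
          rw [Submodule.map_comp]
          exact Submodule.map_mono (by rintro _ ⟨x, -, rfl⟩; exact ⟨x, rfl⟩)
      _ ≤ _ := Submodule.finrank_map_le _ _
  rw [← h1]
  exact h2.trans h3

/-- **Hilbert–Kunz limit.** -/
theorem rank_lim (M : Matrix κ ι (RI I)) {ε : ℝ} (hε : 0 < ε) : ∃ k₀ : ℕ, ∀ k ≥ k₀,
    (((M.map (algebraMap (RI I) (KI I))).rank : ℝ) - ε) * 2 ^ (k * Fintype.card I) ≤
      Module.finrank (ZMod 2) (LinearMap.range (lk k M)) := by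
  classical
  obtain ⟨c, hc⟩ := le_rank M
  set ρ := (M.map (algebraMap (RI I) (KI I))).rank
  set d := Fintype.card I
  obtain ⟨k₀, hk₀⟩ := pow_unbounded_of_one_lt (((ρ : ℝ) * (d * c)) / ε + c) (one_lt_two)
  refine ⟨k₀, fun k hk => ?_⟩
  have hpow : (2 : ℝ) ^ k₀ ≤ 2 ^ k := pow_le_pow_right₀ one_le_two hk
  have hnn : 0 ≤ ((ρ : ℝ) * (d * c)) / ε := by positivity
  have hcR : (c : ℝ) ≤ 2 ^ k := by linarith
  have hcN : c ≤ 2 ^ k := by exact_mod_cast hcR
  have h1 := hc k (2 ^ k - c) (by omega)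
  have h2 : ((2 ^ k - c : ℕ) : ℝ) = 2 ^ k - c := by
    rw [Nat.cast_sub hcN]
    push_cast
    rfl
  have h3 : (ρ : ℝ) * (2 ^ k - c) ^ d ≤ Module.finrank (ZMod 2) (LinearMap.range (lk k M)) := by
    rw [← h2]
    exact_mod_cast h1
  refine le_trans ?_ h3
  have hp : (0 : ℝ) < 2 ^ k := by positivity
  have h4 : (1 : ℝ) - d * (c / 2 ^ k) ≤ (1 - c / 2 ^ k) ^ d := by
    have h5 : (-2 : ℝ) ≤ -(c / 2 ^ k) := by
      have : (c : ℝ) / 2 ^ k ≤ 1 := (div_le_one hp).2 hcR
      linarith
    have h6 := one_add_mul_le_pow h5 d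
    have h7 : (1 : ℝ) + -((c : ℝ) / 2 ^ k) = 1 - c / 2 ^ k := by ring
    rw [h7] at h6
    linarith
  have h5 : ((2 : ℝ) ^ k - c) ^ d = (2 ^ k) ^ d * (1 - c / 2 ^ k) ^ d := by
    rw [← mul_pow]
    congr 1
    field_simp
  have h6 : (ρ : ℝ) * (d * (c / 2 ^ k)) ≤ ε := by
    have h7 : (ρ : ℝ) * (d * c) ≤ ε * 2 ^ k := by
      have : (ρ : ℝ) * (d * c) / ε ≤ 2 ^ k := by
        have : (0 : ℝ) ≤ c := Nat.cast_nonneg _
        linarith
      rw [div_le_iff₀ hε] at this
      linarith
    have h8 : (ρ : ℝ) * (d * (c / 2 ^ k)) = ρ * (d * c) / 2 ^ k := by ring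
    rw [h8, div_le_iff₀ hp]
    exact h7
  rw [h5, pow_mul]
  have h7 : (0 : ℝ) < (2 ^ k) ^ d := by positivity
  have h8 : (ρ : ℝ) - ε ≤ ρ * (1 - c / 2 ^ k) ^ d := by
    have h9 := mul_le_mul_of_nonneg_left h4 (Nat.cast_nonneg ρ : (0 : ℝ) ≤ ρ)
    linarith
  calc ((ρ : ℝ) - ε) * (2 ^ k) ^ d ≤ (ρ * (1 - c / 2 ^ k) ^ d) * (2 ^ k) ^ d :=
        mul_le_mul_of_nonneg_right h8 h7.le
    _ = _ := by ring

/-- the kernel of the reduction of a matrix -/
theorem ker_lim (M : Matrix κ ι (RI I)) {ε : ℝ} (hε : 0 < ε) : ∃ k₀ : ℕ, ∀ k ≥ k₀,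
    (Module.finrank (ZMod 2) (LinearMap.ker (lk k M)) : ℝ) ≤
      ((Fintype.card ι : ℝ) - (M.map (algebraMap (RI I) (KI I))).rank + ε) * 2 ^ (k * Fintype.card I) := by
  classical
  obtain ⟨k₀, h⟩ := rank_lim M hε
  refine ⟨k₀, fun k hk => ?_⟩
  have h1 := h k hk
  have hfin : Finite (RK I k) := finite_RK k
  have h2 := LinearMap.finrank_range_add_finrank_ker (lk k M)
  rw [Module.finrank_pi_fintype, Finset.sum_const, Finset.card_univ, finrank_RK, smul_eq_mul] at h2
  have h3 : (Module.finrank (ZMod 2) (LinearMap.range (lk k M)) : ℝ) +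
      Module.finrank (ZMod 2) (LinearMap.ker (lk k M)) = Fintype.card ι * 2 ^ (k * Fintype.card I) := by
    exact_mod_cast h2
  linarith

/-- the homology of the reduction of a complex -/
theorem hom_lim (D₁ : Matrix κ ι (RI I)) (D₂ : Matrix ι μ (RI I)) {ε : ℝ} (hε : 0 < ε) : ∃ k₀ : ℕ, ∀ k ≥ k₀,
    (Module.finrank (ZMod 2) (LinearMap.ker (lk k D₁)) : ℝ) -
        Module.finrank (ZMod 2) (LinearMap.range (lk k D₂)) ≤
      ((Fintype.card ι : ℝ) - (D₁.map (algebraMap (RI I) (KI I))).rank -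
        (D₂.map (algebraMap (RI I) (KI I))).rank + ε) * 2 ^ (k * Fintype.card I) := by
  classical
  obtain ⟨k₁, h₁⟩ := ker_lim D₁ (half_pos hε)
  obtain ⟨k₂, h₂⟩ := rank_lim D₂ (half_pos hε)
  refine ⟨max k₁ k₂, fun k hk => ?_⟩
  have h3 := h₁ k ((le_max_left _ _).trans hk)
  have h4 := h₂ k ((le_max_right _ _).trans hk)
  linarith

end Rank

end Pool.Agent.S9.HK
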