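import Pool.Agent.S9.TEc
import Pool.Agent.S9.DictB
import Pool.Agent.S9.DictH
import Pool.Agent.S9.E.Flag
import Pool.Agent.S9.E.Weight

/-!
# S9, block E: translation of exactness to the level

`lifts_of`: if all cycles of the last coordinate lift (in the finite quotient), then all cycles of the tautological
character of the level have the property `Lifts`.
-/

set_option autoImplicit false
set_option linter.unusedSectionVars false

open Finset

namespace Pool.Agent.S9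

open Pool.Agent.H77.SW Pool.Agent.H19.SR Pool.Agent.H73.GC

variable {V : Type} [DecidableEq V] [Fintype V] {G : SimpleGraph V} {W : Type} [Group W]

/-- the lifting property of the finite quotient: the conclusion of `lift_last` -/
def LiftP {P : Type} [Group P] (D : PG G P) {I : Type} (e : V → P → I → ℤ) (d : ℕ) : Prop :=
  ∀ (n : ℕ) (M : V → P → Matrix (Fin (n + 1)) (Fin (n + 1)) (KI I)), IsEdg D M →
    (∀ v p a b, b < a → M v p a b = 0) →
    ∀ Z : Fin (n + 1) → (I → ℤ) →+ (I → ℤ), (∀ a, Function.Injective (Z a)) →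
    (∀ v p a, M v p a a = tt (Z a (e v p))) →
    ∀ z₀ : Finset V → P → Fin 1 → KI I,
      z₀ ∈ Zs (KI I) G d (rM D fun v p => fun _ _ : Fin 1 => M v p (Fin.last n) (Fin.last n)) →
      ∃ z ∈ Zs (KI I) G d (rM D M), ∀ σ p, z σ p (Fin.last n) = z₀ σ p 0

theorem lifts_of (R : Rac G W) {Γ : Subgroup W} [Γ.Normal] (hΓ : Lev R Γ) {r : ℕ}
    (ab : Γ →* Multiplicative (Fin r → ℤ)) (hs : Function.Surjective ab)
    (hf : ∀ f : Γ →* Multiplicative ℤ, ∀ g, ab g = 1 → f g = 1) {i : ℕ}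
    (hL : LiftP (qD R hΓ) (eab R ab) i) (z₀ : Finset V → W → KI (Fin r))
    (hz₀ : z₀ ∈ Zc R Γ (ch (chiab ab)) i) : Lifts R Γ (chiab ab) i z₀ := by
  intro N _ _ _ ρ π hρ hπ hinv
  obtain ⟨n, b, lam, hlam, htri, hdiag, hπb⟩ := exists_tri ρ hρ π hπ hinv
  choose Y hY hYi using fun a => exists_wt ab hs hf (chiab ab) (fun g => chiab_coe ab g) (lam a) (hlam a)
  have hM := isEdg_MB R hΓ b (tw (chiab ab) ρ)
  have hval : ∀ v p a c, MB R b (tw (chiab ab) ρ) v p a c =
      (chiab ab (gam R v p) : KI (Fin r)) * LinearMap.toMatrix b b (ρ (gam R v p)) a c := by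
    intro v p a c
    rw [MB_tw]
    rfl
  have hlast : ∀ g, LinearMap.toMatrix b b (ρ g) (Fin.last n) (Fin.last n) = 1 := by
    intro g
    have h1 := hinv g (b (Fin.last n))
    rw [← b.sum_repr (ρ g (b (Fin.last n)))] at h1
    simp only [map_sum, map_smul, hπb, smul_eq_mul, mul_ite, mul_one, mul_zero, Finset.sum_ite_eq',
      Finset.mem_univ, if_true] at h1
    rw [LinearMap.toMatrix_apply]
    exact h1
  have htri' : ∀ v p a c, c < a → MB R b (tw (chiab ab) ρ) v p a c = 0 := by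
    intro v p a c hca
    rw [hval, htri _ _ _ hca, mul_zero]
  have hw : ∀ v p a, MB R b (tw (chiab ab) ρ) v p a a =
      tt ((AddMonoidHom.id (Fin r → ℤ) + 2 • Y a : (Fin r → ℤ) →+ (Fin r → ℤ)) (eab R ab v p)) := by
    intro v p a
    rw [hval, hdiag, hY, chiab_coe, ← tt_add]
    rfl
  let z₁ : Zs (KI (Fin r)) G i (rM (qD R hΓ) (chiK (eab R ab))) :=
    dictChi R hΓ ab (chiab ab) (fun g => chiab_coe ab g) i ⟨z₀, hz₀⟩
  have hrM : (rM (qD R hΓ) fun v p => fun _ _ : Fin 1 => MB R b (tw (chiab ab) ρ) v p (Fin.last n) (Fin.last n)) =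
      rM (qD R hΓ) (chiK (eab R ab)) := by
    have h2 : (fun v p => fun _ _ : Fin 1 => MB R b (tw (chiab ab) ρ) v p (Fin.last n) (Fin.last n)) =
        chiK (eab R ab) := by
      funext v p a c
      rw [hval, hlast, mul_one, chiab_coe]
      rfl
    rw [h2]
  obtain ⟨z', hz', hz'l⟩ := hL n _ hM htri' (fun a => AddMonoidHom.id (Fin r → ℤ) + 2 • Y a) hYi hw
    (z₁ : Finset V → W ⧸ Γ → Fin 1 → KI (Fin r)) (by rw [hrM]; exact z₁.2)
  let c := (dictB R hΓ b (tw (chiab ab) ρ) i).symm ⟨z', hz'⟩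
  refine ⟨c.1, c.2, fun A w => ?_⟩
  have h3 : ∀ p : W ⧸ Γ, π (c.1 A p.out) = z₀ A p.out := by
    intro p
    have h4 : ∀ a, z' A p a = b.repr (c.1 A p.out) a := by
      intro a
      rw [← dictB_apply R hΓ b (tw (chiab ab) ρ) i c A p a]
      have h5 : dictB R hΓ b (tw (chiab ab) ρ) i c = ⟨z', hz'⟩ := LinearEquiv.apply_symm_apply _ _
      rw [h5]
    rw [← b.sum_repr (c.1 A p.out)]
    simp only [map_sum, map_smul, hπb, smul_eq_mul, mul_ite, mul_one, mul_zero, Finset.sum_ite_eq',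
      Finset.mem_univ, if_true]
    rw [← h4, hz'l]
    rfl
  have h6 : c.1 A w = tw (chiab ab) ρ (wg Γ w) (c.1 A (QuotientGroup.mk w : W ⧸ Γ).out) := by
    rw [← c.2.1.2.2 A (wg Γ w), wg_out_eq]
  have h7 : z₀ A w = (chiab ab (wg Γ w) : KI (Fin r)) * z₀ A (QuotientGroup.mk w : W ⧸ Γ).out := by
    rw [← ch_apply, ← hz₀.1.2.2 A (wg Γ w), wg_out_eq]
  rw [h6, h7, ← h3]
  change π ((chiab ab (wg Γ w) : KI (Fin r)) • ρ (wg Γ w) _) = _
  rw [map_smul, hinv, smul_eq_mul]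

/-- if all cycles are boundaries, then the homology vanishes -/
theorem hh_le_zero (R : Rac G W) {Γ : Subgroup W} [Γ.Normal] (hΓ : Lev R Γ) {K : Type} [Field K] {N : Type}
    [AddCommGroup N] [Module K N] [FiniteDimensional K N] (ρ : Γ →* Module.End K N) (i : ℕ)
    (h : ∀ z ∈ Zc R Γ ρ i, z ∈ Bc R Γ ρ i) : hh R Γ ρ i ≤ 0 := by
  have h0 := finite_Cc R hΓ ρ (i + 1)
  have h1 : FiniteDimensional K (Bc R Γ ρ i) := by
    unfold Bc
    infer_instance
  have h2 := Submodule.finrank_mono (show Zc R Γ ρ i ≤ Bc R Γ ρ i from h)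
  unfold hh
  omega

/-- **block E from its parts** -/
theorem E_main_of (R : Rac G W) (i : ℕ)
    (hTE : ∃ (m r : ℕ) (ab : T R m →* Multiplicative (Fin r → ℤ)), Function.Surjective ab ∧
      (∀ f : T R m →* Multiplicative ℤ, ∀ g, ab g = 1 → f g = 1) ∧
      MinAt (qD R (T_lev R m)) (fun v p => Multiplicative.toAdd (ab (gam R v p))) i)
    (hLift : ∀ (P : Type) [Group P] [Fintype P] (D : PG G P) (r : ℕ) (e : V → P → Fin r → ℤ),
      IsEv D e → MinAt D e i → LiftP D e i)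
    (hGZ : ∀ (P : Type) [Group P] [Fintype P] (D : PG G P) (r : ℕ) (e : V → P → Fin r → ℤ),
      IsEv D e → hchi D e i ≤ 0 → GZ G univ i) :
    ∃ (Γ : Subgroup W) (K : Type) (_ : Field K) (_ : CharP K 2) (χ : Γ →* Kˣ), Lev R Γ ∧
      (∀ z₀ ∈ Zc R Γ (ch χ) i, Lifts R Γ χ i z₀) ∧
      ((∀ z₀ ∈ Zc R Γ (ch χ) i, z₀ ∈ Bc R Γ (ch χ) i) → GZ G univ i) := by
  obtain ⟨m, r, ab, hs, hf, hmin⟩ := hTE
  have hchar : CharP (KI (Fin r)) 2 := by
    exact charP_of_injective_ringHom (((algebraMap (RI (Fin r)) (KI (Fin r))).comp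
      (algebraMap (ZMod 2) (RI (Fin r)))).injective) 2
  refine ⟨T R m, KI (Fin r), inferInstance, hchar, chiab ab, T_lev R m, fun z₀ hz₀ => ?_, fun h => ?_⟩
  · exact lifts_of R (T_lev R m) ab hs hf (hLift _ _ r _ (isEv_eab R (T_lev R m) ab) hmin) z₀ hz₀
  · refine hGZ _ (qD R (T_lev R m)) r _ (isEv_eab R (T_lev R m) ab) ?_
    rw [← hh_chi R (T_lev R m) ab (chiab ab) fun g => chiab_coe ab g]
    exact hh_le_zero R (T_lev R m) _ i h

end Pool.Agent.S9
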