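import Pool.Agent.S9.TE
import Pool.Agent.S9.E.Tr
import Pool.Agent.S9.E.Core

/-!
# S9, block E: the main statement
-/

set_option autoImplicit false
set_option linter.unusedSectionVars false

open Finset

namespace Pool.Agent.S9

open Pool.Agent.H77.SW Pool.Agent.H19.SR Pool.Agent.H73.GC

variable {V : Type} [DecidableEq V] [Fintype V] {G : SimpleGraph V} {W : Type} [Group W]

/-- BLOCK E: there is a level at which all cycles lift to all triangular modules, and the growth is the dimension of the
homology with coefficients in `χ` -/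
theorem E_main (R : Rac G W) (i : ℕ) :
    ∃ (Γ : Subgroup W) (K : Type) (_ : Field K) (_ : CharP K 2) (χ : Γ →* Kˣ), Lev R Γ ∧
      (∀ z₀ ∈ Zc R Γ (ch χ) i, Lifts R Γ χ i z₀) ∧
      ((∀ z₀ ∈ Zc R Γ (ch χ) i, z₀ ∈ Bc R Γ (ch χ) i) → GZ G univ i) := by
  refine E_main_of R i (TE R i) (fun P _ _ D r e _ hmin => ?_) fun P _ _ D r e he h => gz_of_zero D e he i h
  intro n M hM htri Z hZ hw z₀ hz₀
  exact lift_last hmin M hM htri Z hZ hw i (Or.inl rfl) z₀ hz₀

end Pool.Agent.S9
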