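import Pool.Agent.S9.E.Defs

/-!
# Project S9, block E: the cycles as the kernel of one matrix
-/

set_option autoImplicit false
set_option linter.unusedSectionVars false

open Finset

namespace Pool.Agent.S9

open Pool.Agent.H77.SW Pool.Agent.H19.SR Pool.Agent.H73.GC

variable {V : Type} [DecidableEq V] [Fintype V] {P : Type} [Group P] [Fintype P] [DecidableEq P]
  {n : Type} [Fintype n] [DecidableEq n]

/-- the equations: invariance, cycle condition, support -/
abbrev EqM (V P n : Type) : Type := (Finset V × V × P × n) ⊕ ((Finset V × P × n) ⊕ (Finset V × P × n))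

open Classical in
/-- The matrix of the equations of the cycles of degree `d` in the variables `z σ p b`: for `v ∈ σ`
`∑ b, M v p a b * z σ (p * g v) b - z σ p a`; for all `κ` the sum of the `z (insert v κ) p a`, `v ∉ κ`; for the `σ`
which are no cliques with `d` elements `z σ p a`. -/
noncomputable def BM {S : Type} [CommRing S] {G : SimpleGraph V} (D : PG G P)
    (M : V → P → Matrix n n S) (d : ℕ) : Matrix (EqM V P n) (Finset V × P × n) S :=
  fun q x =>
    match q with
    | Sum.inl (σ, v, p, a) =>
        if v ∈ σ ∧ x.1 = σ then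
          (if x.2.1 = p * D.g v then M v p a x.2.2 else 0) - (if x.2.1 = p ∧ x.2.2 = a then 1 else 0)
        else 0
    | Sum.inr (Sum.inl (κ, p, a)) =>
        if x.2 = (p, a) ∧ ∃ v ∈ κᶜ, x.1 = insert v κ then 1 else 0
    | Sum.inr (Sum.inr (σ, p, a)) =>
        if x = (σ, p, a) ∧ ¬ (G.IsClique (σ : Set V) ∧ σ.card = d) then 1 else 0

/-- the matrix is functorial in the ring -/
theorem BM_map {S S' : Type} [CommRing S] [CommRing S'] (f : S →+* S') {G : SimpleGraph V}
    (D : PG G P) (M : V → P → Matrix n n S) (d : ℕ) :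
    (BM D M d).map f = BM D (fun v p => (M v p).map f) d := by
  refine Matrix.ext fun q x => ?_
  rw [Matrix.map_apply]
  rcases q with ⟨σ, v, p, a⟩ | ⟨κ, p, a⟩ | ⟨σ, p, a⟩
  · simp only [BM, Matrix.map_apply]
    split_ifs <;> simp
  · simp only [BM]
    split_ifs <;> simp
  · simp only [BM]
    split_ifs <;> simp

section Rows

variable {S : Type} [CommRing S] {G : SimpleGraph V}

open Classical in
private theorem row1 (D : PG G P) (M : V → P → Matrix n n S) (d : ℕ) (z : Finset V → P → n → S)
    (σ : Finset V) (v : V) (p : P) (a : n) :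
    (BM D M d).mulVec (fun x => z x.1 x.2.1 x.2.2) (Sum.inl (σ, v, p, a)) =
      if v ∈ σ then rM D M v (z σ) p a - z σ p a else 0 := by
  rw [Matrix.mulVec, dotProduct]
  simp only [BM]
  by_cases hv : v ∈ σ
  · rw [if_pos hv, Fintype.sum_prod_type, Finset.sum_eq_single σ]
    · simp only [hv, and_self, if_true]
      rw [Fintype.sum_prod_type]
      simp only [sub_mul, sum_sub_distrib]
      congr 1
      · rw [Finset.sum_eq_single (p * D.g v)]
        · simp only [if_true]
          rfl
        · intro q _ hq
          simp [hq]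
        · intro h
          exact absurd (mem_univ _) h
      · rw [Finset.sum_eq_single p]
        · rw [Finset.sum_eq_single a]
          · simp
          · intro b _ hb
            simp [hb]
          · intro h
            exact absurd (mem_univ _) h
        · intro q _ hq
          simp [hq]
        · intro h
          exact absurd (mem_univ _) h
    · intro τ _ hτ
      simp [hτ]
    · intro h
      exact absurd (mem_univ _) h
  · simp [hv]

private theorem row2 (D : PG G P) (M : V → P → Matrix n n S) (d : ℕ) (z : Finset V → P → n → S)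
    (κ : Finset V) (p : P) (a : n) :
    (BM D M d).mulVec (fun x => z x.1 x.2.1 x.2.2) (Sum.inr (Sum.inl (κ, p, a))) =
      ∑ v ∈ κᶜ, z (insert v κ) p a := by
  classical
  rw [Matrix.mulVec, dotProduct]
  simp only [BM]
  rw [Fintype.sum_prod_type]
  have h1 : ∀ σ : Finset V, ∑ y : P × n, (if y = (p, a) ∧ ∃ v ∈ κᶜ, σ = insert v κ then (1 : S) else 0) *
      z σ y.1 y.2 = if ∃ v ∈ κᶜ, σ = insert v κ then z σ p a else 0 := by
    intro σ
    rw [Finset.sum_eq_single (p, a)]
    · simp
    · intro y _ hy
      simp [hy]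
    · intro h
      exact absurd (mem_univ _) h
  have h2 : ∑ v ∈ κᶜ, z (insert v κ) p a = ∑ σ ∈ κᶜ.image fun v => insert v κ, z σ p a := by
    rw [Finset.sum_image]
    intro v hv w hw h
    rw [mem_coe, mem_compl] at hv hw
    have h3 : v ∈ insert w κ := by
      simp only at h
      rw [← h]
      exact mem_insert_self _ _
    exact (mem_insert.1 h3).resolve_right hv
  rw [h2]
  refine (Finset.sum_congr rfl fun σ _ => h1 σ).trans ?_
  rw [← Finset.sum_filter]
  refine Finset.sum_congr (Finset.ext fun σ => ?_) fun _ _ => rfl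
  rw [mem_filter, mem_image]
  constructor
  · rintro ⟨_, v, hv, rfl⟩
    exact ⟨v, hv, rfl⟩
  · rintro ⟨v, hv, rfl⟩
    exact ⟨mem_univ _, v, hv, rfl⟩

private theorem row3 (D : PG G P) (M : V → P → Matrix n n S) (d : ℕ) (z : Finset V → P → n → S)
    (σ : Finset V) (p : P) (a : n) (h : ¬ (G.IsClique (σ : Set V) ∧ σ.card = d)) :
    (BM D M d).mulVec (fun x => z x.1 x.2.1 x.2.2) (Sum.inr (Sum.inr (σ, p, a))) = z σ p a := by
  rw [Matrix.mulVec, dotProduct]
  simp only [BM]
  rw [Finset.sum_eq_single (σ, p, a)]
  · simp [h]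
  · intro y _ hy
    simp [hy]
  · intro h
    exact absurd (mem_univ _) h

private theorem row3' (D : PG G P) (M : V → P → Matrix n n S) (d : ℕ) (z : Finset V → P → n → S)
    (σ : Finset V) (p : P) (a : n) (h : G.IsClique (σ : Set V) ∧ σ.card = d) :
    (BM D M d).mulVec (fun x => z x.1 x.2.1 x.2.2) (Sum.inr (Sum.inr (σ, p, a))) = 0 := by
  rw [Matrix.mulVec, dotProduct]
  simp only [BM]
  exact Finset.sum_eq_zero fun y _ => by simp [h]

end Rows

/-- the kernel of the matrix -/
theorem BM_iff {S : Type} [CommRing S] {G : SimpleGraph V} (D : PG G P)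
    (M : V → P → Matrix n n S) (d : ℕ) (z : Finset V → P → n → S) :
    (BM D M d).mulVec (fun x => z x.1 x.2.1 x.2.2) = 0 ↔
      (∀ σ, z σ ≠ 0 → G.IsClique (σ : Set V) ∧ σ.card = d) ∧
      (∀ σ, ∀ v ∈ σ, rM D M v (z σ) = z σ) ∧ ∀ κ, ∑ v ∈ κᶜ, z (insert v κ) = 0 := by
  constructor
  · intro h
    refine ⟨fun σ hσ => ?_, fun σ v hv => ?_, fun κ => ?_⟩
    · by_contra h1
      refine hσ (funext fun p => funext fun a => ?_)
      rw [← row3 D M d z σ p a h1, h]
      rfl
    · funext p a
      have h1 := row1 D M d z σ v p a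
      rw [h, if_pos hv] at h1
      exact (sub_eq_zero.1 h1.symm)
    · funext p a
      rw [Finset.sum_apply, Finset.sum_apply, ← row2 D M d z κ p a, h]
      rfl
  · rintro ⟨h1, h2, h3⟩
    funext q
    rcases q with ⟨σ, v, p, a⟩ | ⟨κ, p, a⟩ | ⟨σ, p, a⟩
    · rw [row1]
      split_ifs with hv
      · rw [h2 σ v hv, sub_self]
        rfl
      · rfl
    · rw [row2]
      have h4 := congrFun (congrFun (h3 κ) p) a
      rw [Finset.sum_apply, Finset.sum_apply] at h4
      exact h4
    · by_cases h4 : G.IsClique (σ : Set V) ∧ σ.card = d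
      · exact row3' D M d z σ p a h4
      · rw [row3 D M d z σ p a h4]
        by_contra h5
        exact h4 (h1 σ fun h6 => h5 (by rw [h6]; rfl))

/-- the functions of three variables -/
private def cur3 (R S : Type) [CommSemiring R] [AddCommMonoid S] [Module R S] (V P n : Type) :
    (Finset V → P → n → S) ≃ₗ[R] (Finset V × P × n → S) where
  toFun z x := z x.1 x.2.1 x.2.2
  invFun y σ p a := y (σ, p, a)
  map_add' _ _ := rfl
  map_smul' _ _ := rfl
  left_inv _ := rfl
  right_inv _ := rfl

/-- the dimension of the cycles over a field -/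
theorem zM_eq {K : Type} [Field K] {G : SimpleGraph V} (D : PG G P) (M : V → P → Matrix n n K)
    (d : ℕ) : zM K D M d + (BM D M d).rank = Fintype.card (Finset V × P × n) := by
  have h1 : (Zs K G d (rM D M)).map (cur3 K K V P n : _ →ₗ[K] _) =
      LinearMap.ker (BM D M d).mulVecLin := by
    ext y
    rw [LinearMap.mem_ker, Matrix.mulVecLin_apply, Submodule.mem_map]
    constructor
    · rintro ⟨z, hz, rfl⟩
      exact (BM_iff D M d z).2 (mem_Zs.1 hz)
    · intro hy
      exact ⟨fun σ p a => y (σ, p, a), mem_Zs.2 ((BM_iff D M d _).1 hy), rfl⟩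
  have h2 := LinearEquiv.finrank_map_eq (cur3 K K V P n) (Zs K G d (rM D M))
  rw [h1] at h2
  have h3 := LinearMap.finrank_range_add_finrank_ker (BM D M d).mulVecLin
  rw [h2, Module.finrank_fintype_fun_eq_card] at h3
  unfold zM Matrix.rank
  omega

/-- the dimension of the cycles over a ring which is an algebra over the field with two elements (the operators
are considered as linear maps over this field) -/
theorem zs_eq_ker {S : Type} [CommRing S] [Algebra (ZMod 2) S] [Finite S] {G : SimpleGraph V}
    (D : PG G P) (M : V → P → Matrix n n S) (d : ℕ) :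
    Module.finrank (ZMod 2) (Zs (ZMod 2) G d fun v => (rM D M v).restrictScalars (ZMod 2)) +
      Module.finrank (ZMod 2) (LinearMap.range ((BM D M d).mulVecLin.restrictScalars (ZMod 2))) =
      Fintype.card (Finset V × P × n) * Module.finrank (ZMod 2) S := by
  have h1 : (Zs (ZMod 2) G d fun v => (rM D M v).restrictScalars (ZMod 2)).map
      (cur3 (ZMod 2) S V P n : _ →ₗ[ZMod 2] _) =
      LinearMap.ker ((BM D M d).mulVecLin.restrictScalars (ZMod 2)) := by
    ext y
    rw [LinearMap.mem_ker, LinearMap.restrictScalars_apply, Matrix.mulVecLin_apply,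
      Submodule.mem_map]
    constructor
    · rintro ⟨z, hz, rfl⟩
      exact (BM_iff D M d z).2 (mem_Zs.1 hz)
    · intro hy
      exact ⟨fun σ p a => y (σ, p, a), mem_Zs.2 ((BM_iff D M d _).1 hy), rfl⟩
  have h2 := LinearEquiv.finrank_map_eq (cur3 (ZMod 2) S V P n)
    (Zs (ZMod 2) G d fun v => (rM D M v).restrictScalars (ZMod 2))
  rw [h1] at h2
  have h0 : Module.Finite (ZMod 2) S := Module.Finite.of_finite
  have h3 := LinearMap.finrank_range_add_finrank_ker
    ((BM D M d).mulVecLin.restrictScalars (ZMod 2))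
  rw [h2, Module.finrank_pi_fintype, Finset.sum_const, Finset.card_univ, smul_eq_mul] at h3
  omega

end Pool.Agent.S9
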